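import Pool.Agent.H770.GS.TA

/-!
# Project TA: the weight `Mc r c a / W a` is monotone
-/

set_option autoImplicit false

open MeasureTheory Set intervalIntegral

namespace Pool.Agent.H37.GSmono

open Pool.Agent.H770.GS

/-- `e^(-x²/4) e^(-(r-x/2)²)` -/
noncomputable def ee (r x : ℝ) : ℝ := Real.exp (-x ^ 2 / 4) * Real.exp (-(r - x / 2) ^ 2)

theorem ee_pos (r x : ℝ) : 0 < ee r x := mul_pos (Real.exp_pos _) (Real.exp_pos _)

theorem ee_deriv (r x : ℝ) : HasDerivAt (ee r) ((r - x) * ee r x) x := by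
  have h1 : HasDerivAt (fun z : ℝ => Real.exp (-z ^ 2 / 4)) (Real.exp (-x ^ 2 / 4) * (-(x / 2))) x := by
    have : HasDerivAt (fun q : ℝ => -q ^ 2 / 4) (-(x / 2)) x := by
      refine ((hasDerivAt_pow 2 x).fun_neg.div_const 4).congr_deriv ?_
      norm_num
      ring
    exact this.exp
  have h2 : HasDerivAt (fun z : ℝ => r - z / 2) (-(1 / 2)) x := by
    simpa using ((hasDerivAt_id x).div_const 2).const_sub r
  have h3 : HasDerivAt (fun z : ℝ => Real.exp (-(r - z / 2) ^ 2))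
      (Real.exp (-(r - x / 2) ^ 2) * (r - x / 2)) x := by
    have : HasDerivAt (fun z : ℝ => -(r - z / 2) ^ 2) (r - x / 2) x := by
      refine (h2.fun_pow 2).fun_neg.congr_deriv ?_
      norm_num
      ring
    exact this.exp
  unfold ee
  refine (h1.mul h3).congr_deriv ?_
  ring

/-- `M₁` -/
noncomputable def M1 (r x : ℝ) : ℝ :=
  x ^ 3 / 4 * fL r x + ee r x * (1 - r * x + 3 / 2 * x ^ 2)

/-- the derivative of `M₁` -/
noncomputable def M1d (r x : ℝ) : ℝ :=
  fL r x * (x ^ 2 * (6 - x ^ 2) / 8) +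
    ee r x * (x * (2 - r ^ 2 + 5 / 2 * r * x - 7 / 4 * x ^ 2))

theorem M1_deriv (r x : ℝ) : HasDerivAt (M1 r) (M1d r x) x := by
  have h1 : HasDerivAt (fun z : ℝ => z ^ 3 / 4) (3 * x ^ 2 / 4) x := by
    refine ((hasDerivAt_pow 3 x).div_const 4).congr_deriv ?_
    norm_num
  have h2 : HasDerivAt (fun z : ℝ => 1 - r * z + 3 / 2 * z ^ 2) (-r + 3 * x) x := by
    refine ((((hasDerivAt_id x).const_mul r).const_sub 1).add
      ((hasDerivAt_pow 2 x).const_mul (3 / 2 : ℝ))).congr_deriv ?_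
    norm_num
    ring
  unfold M1
  refine ((h1.mul (fL_deriv r x)).add ((ee_deriv r x).mul h2)).congr_deriv ?_
  unfold M1d nL
  have e : Real.exp (-x ^ 2 / 4) * Real.exp (-(r - x / 2) ^ 2) = ee r x := rfl
  rw [e]
  ring

theorem Mc_eq (r c a : ℝ) : Mc r c a = M1 r (c * a) := by
  unfold Mc M1 nLd nL ee
  ring

theorem M1_nonneg {r x : ℝ} (hr : r ^ 2 ≤ 3) (h0 : 0 ≤ x) (hx : x ≤ 2 * r) : 0 ≤ M1 r x := by
  unfold M1
  have hf := fL_nonneg hx
  have he := (ee_pos r x).le
  have h1 : 0 ≤ 1 - r * x + 3 / 2 * x ^ 2 := by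
    have e : 1 - r * x + 3 / 2 * x ^ 2 = (1 - r * x / 2) ^ 2 + (3 / 2 - r ^ 2 / 4) * x ^ 2 := by
      ring
    rw [e]
    have : 0 ≤ (3 / 2 - r ^ 2 / 4) * x ^ 2 := mul_nonneg (by linarith) (sq_nonneg x)
    positivity
  have h2 : 0 ≤ ee r x * (1 - r * x + 3 / 2 * x ^ 2) := mul_nonneg he h1
  have h3 : 0 ≤ x ^ 3 / 4 * fL r x := mul_nonneg (by positivity) hf
  linarith

theorem M1d_add {r x : ℝ} (hr : r ^ 2 ≤ 3) (h0 : 0 ≤ x) (hx : x ≤ 2 * r) :
    0 ≤ M1d r x + x * M1 r x := by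
  have hf := fL_nonneg hx
  have he := (ee_pos r x).le
  have e : M1d r x + x * M1 r x = fL r x * (x ^ 2 * (6 + x ^ 2) / 8) +
      ee r x * (x * (3 - r ^ 2 + x * (3 / 2 * r - x / 4))) := by
    unfold M1d M1
    ring
  rw [e]
  have h1 : 0 ≤ x * (3 / 2 * r - x / 4) := mul_nonneg h0 (by linarith)
  have h2 : 0 ≤ ee r x * (x * (3 - r ^ 2 + x * (3 / 2 * r - x / 4))) :=
    mul_nonneg he (mul_nonneg h0 (by linarith))
  have h3 : 0 ≤ fL r x * (x ^ 2 * (6 + x ^ 2) / 8) := mul_nonneg hf (by positivity)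
  linarith

theorem main : S_mono := by
  intro r c hr hr3 hc hc1
  have hdom : ∀ a, 0 ≤ a → a ≤ 2 * r → 0 ≤ c * a ∧ c * a ≤ 2 * r := by
    intro a h0 h1
    refine ⟨by positivity, ?_⟩
    calc c * a ≤ 1 * a := mul_le_mul_of_nonneg_right hc1 h0
      _ ≤ 2 * r := by linarith
  constructor
  · have hd : ∀ a : ℝ, HasDerivAt (fun a => Mc r c a / W a)
        ((M1d r (c * a) * c * W a - M1 r (c * a) * (-(a * W a))) / W a ^ 2) a := by
      intro a
      have h1 : HasDerivAt (fun a : ℝ => c * a) c a := by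
        simpa using (hasDerivAt_id a).const_mul c
      have h2 : HasDerivAt (fun a => M1 r (c * a)) (M1d r (c * a) * c) a :=
        (M1_deriv r (c * a)).comp a h1
      have h3 : (fun a => Mc r c a / W a) = fun a => M1 r (c * a) / W a := by
        funext a
        rw [Mc_eq]
      rw [h3]
      exact h2.div (W_deriv a) (W_pos a).ne'
    refine monotoneOn_of_deriv_nonneg (convex_Icc _ _) ?_ ?_ ?_
    · exact fun x _ => (hd x).continuousAt.continuousWithinAt
    · exact fun x _ => (hd x).differentiableAt.differentiableWithinAt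
    · intro a ha
      rw [interior_Icc] at ha
      rw [(hd a).deriv]
      obtain ⟨hx0, hx1⟩ := hdom a ha.1.le ha.2.le
      refine div_nonneg ?_ (by positivity)
      have hW := W_pos a
      have e : M1d r (c * a) * c * W a - M1 r (c * a) * (-(a * W a)) =
          (c * M1d r (c * a) + a * M1 r (c * a)) * W a := by ring
      rw [e]
      refine mul_nonneg ?_ hW.le
      have hM := M1_nonneg hr3 hx0 hx1
      have hadd := M1d_add hr3 hx0 hx1
      have hkey : 0 ≤ c * (c * M1d r (c * a) + a * M1 r (c * a)) := by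
        have e2 : c * (c * M1d r (c * a) + a * M1 r (c * a)) =
            c ^ 2 * M1d r (c * a) + c * a * M1 r (c * a) := by ring
        rw [e2]
        rcases le_or_gt 0 (M1d r (c * a)) with h | h
        · have h4 : 0 ≤ c ^ 2 * M1d r (c * a) := mul_nonneg (sq_nonneg c) h
          have h5 : 0 ≤ c * a * M1 r (c * a) := mul_nonneg hx0 hM
          linarith
        · have h4 : c ^ 2 ≤ 1 := by nlinarith
          have h5 : M1d r (c * a) ≤ c ^ 2 * M1d r (c * a) := by nlinarith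
          linarith
      exact nonneg_of_mul_nonneg_right hkey hc
  · intro a ha
    obtain ⟨hx0, hx1⟩ := hdom a ha.1 ha.2
    rw [Mc_eq]
    exact M1_nonneg hr3 hx0 hx1

end Pool.Agent.H37.GSmono
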