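import Pool.Agent.H37.Main1

set_option autoImplicit false
set_option linter.unusedSectionVars false

/-!
Translation to graph homomorphisms.
-/

namespace Pool.Agent.H37

open Finset Pool.Agent.H37.Hard

universe u v

/-- a triangle-free graph has independent neighbourhoods -/
lemma indep_of_cliqueFree {U : Type u} {T : SimpleGraph U} (h : T.CliqueFree 3) :
    ∀ u a b, T.Adj u a → T.Adj u b → ¬ T.Adj a b := by
  classical
  intro u a b hua hub hab
  exact h {u, a, b} (SimpleGraph.is3Clique_iff.2 ⟨u, a, b, hua, hub, hab, rfl⟩)

/-- an embedding of everything gives an injective homomorphism to the complement -/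
lemma hom_of_embOn {W : Type u} {U : Type v} [Fintype W] {G : SimpleGraph W} {T : SimpleGraph U}
    (h : EmbOn G T Finset.univ) : ∃ f : G →g Tᶜ, Function.Injective f := by
  obtain ⟨f, hf1, hf2⟩ := h
  have hinj : Function.Injective f := fun a b hab =>
    hf1 (by simp) (by simp) hab
  refine ⟨⟨f, ?_⟩, hinj⟩
  intro a b hab
  rw [SimpleGraph.compl_adj]
  exact ⟨fun h => hab.ne (hinj h), hf2 a (Finset.mem_univ _) b (Finset.mem_univ _) hab⟩

end Pool.Agent.H37
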