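import Pool.Agent.H37.LemmaE3

set_option autoImplicit false
set_option linter.unusedSectionVars false

/-!
Greedy extension, reduction to cores, degree sums.
-/

namespace Pool.Agent.H37

open Finset Pool.Agent.H37.Hard

section

variable {W U : Type*} [Fintype W] [Fintype U] [DecidableEq W] [DecidableEq U]

lemma embOn_insert {G : SimpleGraph W} {T : SimpleGraph U} {A : Finset W} {v : W} {D : ℕ}
    (hD : ∀ x, (nb T x).card ≤ D) (h : EmbOn G T A)
    (hcard : A.card + (nb G v ∩ A).card * D < Fintype.card U) : EmbOn G T (insert v A) := by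
  classical
  by_cases hv : v ∈ A
  · rw [Finset.insert_eq_of_mem hv]; exact h
  obtain ⟨f, hf1, hf2⟩ := h
  have h1 : (A.image f ∪ (nb G v ∩ A).biUnion (fun y => nb T (f y))).card <
      (Finset.univ : Finset U).card := by
    rw [Finset.card_univ]
    refine lt_of_le_of_lt ((Finset.card_union_le _ _).trans ?_) hcard
    apply Nat.add_le_add Finset.card_image_le
    refine Finset.card_biUnion_le.trans ?_
    calc ∑ y ∈ nb G v ∩ A, (nb T (f y)).card ≤ ∑ y ∈ nb G v ∩ A, D :=
          Finset.sum_le_sum (fun y _ => hD _)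
      _ = (nb G v ∩ A).card * D := by rw [Finset.sum_const, smul_eq_mul]
  obtain ⟨u, _, hu⟩ := Finset.exists_mem_notMem_of_card_lt_card h1
  rw [Finset.mem_union, not_or] at hu
  refine ⟨Function.update f v u, ?_, ?_⟩
  · intro a ha b hb hab
    rw [Finset.mem_coe, Finset.mem_insert] at ha hb
    rcases ha with rfl | ha <;> rcases hb with rfl | hb
    · rfl
    · have hne : b ≠ a := fun h => hv (h ▸ hb)
      rw [Function.update_self, Function.update_of_ne hne] at hab
      exact absurd (Finset.mem_image.2 ⟨b, hb, hab.symm⟩) hu.1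
    · have hne : a ≠ b := fun h => hv (h ▸ ha)
      rw [Function.update_self, Function.update_of_ne hne] at hab
      exact absurd (Finset.mem_image.2 ⟨a, ha, hab⟩) hu.1
    · have hne : a ≠ v := fun h => hv (h ▸ ha)
      have hne' : b ≠ v := fun h => hv (h ▸ hb)
      rw [Function.update_of_ne hne, Function.update_of_ne hne'] at hab
      exact hf1 ha hb hab
  · have key : ∀ y ∈ A, G.Adj v y → ¬ T.Adj (f y) u := by
      intro y hy hadj hT
      apply hu.2
      rw [Finset.mem_biUnion]
      exact ⟨y, Finset.mem_inter.2 ⟨mem_nb.2 hadj, hy⟩, mem_nb.2 hT⟩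
    intro a ha b hb hadj
    rw [Finset.mem_insert] at ha hb
    rcases ha with rfl | ha <;> rcases hb with rfl | hb
    · exact absurd hadj (G.loopless.irrefl _)
    · have hne : b ≠ a := fun h => hv (h ▸ hb)
      rw [Function.update_self, Function.update_of_ne hne]
      exact fun hT => key b hb hadj hT.symm
    · have hne : a ≠ b := fun h => hv (h ▸ ha)
      rw [Function.update_self, Function.update_of_ne hne]
      exact key a ha hadj.symm
    · have hne : a ≠ v := fun h => hv (h ▸ ha)
      have hne' : b ≠ v := fun h => hv (h ▸ hb)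
      rw [Function.update_of_ne hne, Function.update_of_ne hne']
      exact hf2 a ha b hb hadj

lemma emb_of_core [Nonempty U] {G : SimpleGraph W} {T : SimpleGraph U} {m D : ℕ}
    (hD : ∀ x, (nb T x).card ≤ D) (hN : Fintype.card W + m ≤ Fintype.card U)
    (hcore : ∀ A : Finset W, A.Nonempty → (∀ v ∈ A, m < (nb G v ∩ A).card * D) → EmbOn G T A)
    (A : Finset W) : EmbOn G T A := by
  classical
  induction A using Finset.strongInduction with
  | H A ih =>
    by_cases hne : A.Nonempty
    · by_cases hc : ∀ v ∈ A, m < (nb G v ∩ A).card * D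
      · exact hcore A hne hc
      · push Not at hc
        obtain ⟨v, hv, hvm⟩ := hc
        have h1 := ih (A.erase v) (Finset.erase_ssubset hv)
        rw [← Finset.insert_erase hv]
        apply embOn_insert hD h1
        have h2 : (nb G v ∩ A.erase v).card ≤ (nb G v ∩ A).card :=
          Finset.card_le_card (Finset.inter_subset_inter_left (Finset.erase_subset _ _))
        have h3 : (A.erase v).card + 1 ≤ Fintype.card W := by
          rw [Finset.card_erase_add_one hv]; exact Finset.card_le_univ A
        have h4 := Nat.mul_le_mul_right D h2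
        omega
    · rw [Finset.not_nonempty_iff_eq_empty] at hne
      subst hne
      obtain ⟨u⟩ := (inferInstance : Nonempty U)
      exact ⟨fun _ => u, by simp, by simp⟩

/-- a pattern part of size at most `|I|` embeds into the independent set `I` -/
lemma embOn_of_card_le [Nonempty U] {G : SimpleGraph W} {T : SimpleGraph U} {I : Finset U}
    (hI : ∀ a ∈ I, ∀ b ∈ I, ¬ T.Adj a b) (A : Finset W) (hA : A.card ≤ I.card) : EmbOn G T A := by
  obtain ⟨g, hg1, hg2⟩ := hall_greedy A (fun _ => I) I.card hA (fun _ _ => le_rfl)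
  exact ⟨g, hg1, fun a ha b hb _ => hI _ (hg2 a ha) _ (hg2 b hb)⟩

/-- degree sum of the part `X` -/
noncomputable def dd (G : SimpleGraph W) (X : Finset W) : ℕ := ∑ v ∈ X, (nb G v ∩ X).card

lemma dd_mono (G : SimpleGraph W) {X Y : Finset W} (h : X ⊆ Y) : dd G X ≤ dd G Y := by
  unfold dd
  calc ∑ v ∈ X, (nb G v ∩ X).card ≤ ∑ v ∈ X, (nb G v ∩ Y).card :=
        Finset.sum_le_sum (fun v _ => Finset.card_le_card (Finset.inter_subset_inter_left h))
    _ ≤ ∑ v ∈ Y, (nb G v ∩ Y).card := Finset.sum_le_sum_of_subset h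

lemma dd_univ (G : SimpleGraph W) : dd G Finset.univ = 2 * G.edgeSet.ncard := by
  classical
  unfold dd
  have h1 : ∀ v, (nb G v ∩ Finset.univ).card = G.degree v := by
    intro v
    rw [Finset.inter_univ, ← SimpleGraph.card_neighborFinset_eq_degree]
    congr 1
    ext y
    rw [mem_nb, SimpleGraph.mem_neighborFinset]
  rw [Finset.sum_congr rfl (fun v _ => h1 v), SimpleGraph.sum_degrees_eq_twice_card_edges]
  congr 1
  rw [← SimpleGraph.coe_edgeFinset, Set.ncard_coe_finset]

lemma dd_le (G : SimpleGraph W) (X : Finset W) : dd G X ≤ 2 * G.edgeSet.ncard := by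
  rw [← dd_univ]; exact dd_mono G (Finset.subset_univ _)

/-- number of ordered pairs between two parts -/
noncomputable def xx (G : SimpleGraph W) (X Y : Finset W) : ℕ := ∑ v ∈ X, (nb G v ∩ Y).card

lemma xx_comm (G : SimpleGraph W) (X Y : Finset W) : xx G X Y = xx G Y X := by
  classical
  unfold xx
  have h1 : ∀ (Z : Finset W) v, (nb G v ∩ Z).card = ∑ y ∈ Z, if G.Adj v y then 1 else 0 := by
    intro Z v
    rw [← Finset.card_filter]
    congr 1
    ext y
    rw [Finset.mem_inter, Finset.mem_filter, mem_nb, and_comm]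
  rw [Finset.sum_congr rfl (fun v _ => h1 Y v), Finset.sum_congr rfl (fun v _ => h1 X v),
    Finset.sum_comm]
  apply Finset.sum_congr rfl
  intro y _
  apply Finset.sum_congr rfl
  intro v _
  simp only [G.adj_comm]

lemma nb_inter_union (G : SimpleGraph W) (v : W) {X Y : Finset W} (h : Disjoint X Y) :
    (nb G v ∩ (X ∪ Y)).card = (nb G v ∩ X).card + (nb G v ∩ Y).card := by
  rw [Finset.inter_union_distrib_left, Finset.card_union_of_disjoint]
  exact Disjoint.mono Finset.inter_subset_right Finset.inter_subset_right h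

lemma dd_union (G : SimpleGraph W) {X Y : Finset W} (h : Disjoint X Y) :
    dd G (X ∪ Y) = dd G X + dd G Y + 2 * xx G X Y := by
  have h2 := xx_comm G X Y
  unfold dd xx at *
  rw [Finset.sum_union h]
  simp only [nb_inter_union G _ h]
  rw [Finset.sum_add_distrib, Finset.sum_add_distrib]
  omega

lemma nb_self (G : SimpleGraph W) (v : W) : nb G v ∩ {v} = ∅ := by
  ext y
  simp only [Finset.mem_inter, mem_nb, Finset.mem_singleton, Finset.notMem_empty, iff_false]
  rintro ⟨h1, rfl⟩
  exact G.loopless.irrefl _ h1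

lemma dd_insert (G : SimpleGraph W) {X : Finset W} {w : W} (hw : w ∉ X) :
    dd G (insert w X) = dd G X + 2 * (nb G w ∩ X).card := by
  have h1 : Disjoint {w} X := by
    rw [Finset.disjoint_singleton_left]; exact hw
  have h2 := dd_union G h1
  rw [← Finset.insert_eq] at h2
  rw [h2]
  have h3 : dd G {w} = 0 := by
    unfold dd; rw [Finset.sum_singleton, nb_self]; rfl
  have h4 : xx G {w} X = (nb G w ∩ X).card := by
    unfold xx; rw [Finset.sum_singleton]
  rw [h3, h4]; ring

lemma nb_erase (G : SimpleGraph W) (X : Finset W) (w : W) : nb G w ∩ X.erase w = nb G w ∩ X := by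
  ext y
  simp only [Finset.mem_inter, mem_nb, Finset.mem_erase]
  constructor
  · rintro ⟨h1, _, h2⟩; exact ⟨h1, h2⟩
  · rintro ⟨h1, h2⟩; exact ⟨h1, h1.ne', h2⟩

lemma dd_erase (G : SimpleGraph W) {X : Finset W} {w : W} (hw : w ∈ X) :
    dd G X = dd G (X.erase w) + 2 * (nb G w ∩ X).card := by
  have h1 := dd_insert G (Finset.notMem_erase w X)
  rw [Finset.insert_erase hw, nb_erase] at h1
  exact h1

end

end Pool.Agent.H37
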