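import Pool.Agent.H37.LemmaE2

set_option autoImplicit false
set_option linter.unusedSectionVars false

/-!
The embedding lemma, numerical part.
-/

namespace Pool.Agent.H37

open Finset Pool.Agent.H37.Hard Pool.Agent.H37.Pot

universe u v

lemma num_left1 {D a N E τ ρ b : ℝ} (hD : 0 < D) (ha : 0 < a) (hN : 0 < N) (hE : 0 < E)
    (hτ : 0 < τ) (hρ : 0 < ρ) (hb : b ≤ 2 * D) (h : 48 * E * D ≤ a * τ * ρ * N) :
    b / (1 + 1 / D * (a * N) * (1 / E)) ≤ τ * ρ * D / 24 := by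
  have h1 : 0 < 1 / D * (a * N) * (1 / E) := by positivity
  rw [div_le_iff₀ (by linarith)]
  have h2 : τ * ρ * D / 24 * (1 / D * (a * N) * (1 / E)) = a * τ * ρ * N / (24 * E) := by
    field_simp
  have h3 : 2 * D ≤ a * τ * ρ * N / (24 * E) := by
    rw [le_div_iff₀ (by positivity)]
    linarith
  have h4 : 0 ≤ τ * ρ * D / 24 := by positivity
  calc b ≤ 2 * D := hb
    _ ≤ a * τ * ρ * N / (24 * E) := h3
    _ = τ * ρ * D / 24 * (1 / D * (a * N) * (1 / E)) := h2.symm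
    _ ≤ τ * ρ * D / 24 * (1 + 1 / D * (a * N) * (1 / E)) :=
        mul_le_mul_of_nonneg_left (by linarith) h4

lemma num_left2 {D a N E τ ρ b : ℝ} (hD : 0 < D) (ha : 0 < a) (hN : 0 < N) (hE : 0 < E)
    (hb0 : 0 ≤ b) (hb : b ≤ 2 * D)
    (h : 96 * E ^ 2 * D ≤ a ^ 2 * τ * ρ * N) :
    b ^ 2 * N / (a * N * (1 / E)) ^ 2 ≤ τ * ρ * D / 24 := by
  rw [div_le_iff₀ (by positivity)]
  have h1 : b ^ 2 ≤ 4 * D ^ 2 := by nlinarith
  have h2 : τ * ρ * D / 24 * (a * N * (1 / E)) ^ 2 =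
      (a ^ 2 * τ * ρ * N) * (D * N) / (24 * E ^ 2) := by
    field_simp
  rw [h2, le_div_iff₀ (by positivity)]
  calc b ^ 2 * N * (24 * E ^ 2) ≤ 4 * D ^ 2 * N * (24 * E ^ 2) := by
        apply mul_le_mul_of_nonneg_right _ (by positivity)
        exact mul_le_mul_of_nonneg_right h1 hN.le
    _ = (96 * E ^ 2 * D) * (D * N) := by ring
    _ ≤ (a ^ 2 * τ * ρ * N) * (D * N) := mul_le_mul_of_nonneg_right h (by positivity)

/-- few dead vertices -/
lemma dead_bound {W : Type u} [DecidableEq W] (M : Finset W) (len : W → ℝ) (deg : W → ℕ)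
    {v0 D N C τ ρ Γ ε1 a p q : ℝ} (hD : 0 < D) (hN : 0 < N) (hτ : 0 < τ) (hρ : 0 < ρ)
    (hε1 : 0 < ε1) (hΓ : Γ = 16 * C / (τ * ρ))
    (ha : a = ε1 * (τ / 2) * Real.exp (-Γ)) (hp : p = ρ / 2 * D) (hq : q = 4 / τ * D ^ 2 / N)
    (hv0 : τ / 2 * N ≤ v0) (hdeg : ∀ w ∈ M, (deg w : ℝ) * D ≤ C * N)
    (hsum : ∑ w ∈ M, 1 / max (len w) (a * N) ≤
      ∑ w ∈ M, (1 + 2 * q / p) ^ (deg w) / max v0 (a * N)) :
    ((M.filter (fun w => len w < a * N)).card : ℝ) ≤ (M.card : ℝ) * ε1 := by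
  have ha0 : 0 < a := by rw [ha]; positivity
  have haN : 0 < a * N := by positivity
  have h1 : ((M.filter (fun w => len w < a * N)).card : ℝ) * (1 / (a * N)) ≤
      ∑ w ∈ M, 1 / max (len w) (a * N) := by
    have h2 : ((M.filter (fun w => len w < a * N)).card : ℝ) * (1 / (a * N)) =
        ∑ w ∈ M.filter (fun w => len w < a * N), 1 / max (len w) (a * N) := by
      rw [← nsmul_eq_mul, ← Finset.sum_const]
      apply Finset.sum_congr rfl
      intro w hw
      rw [Finset.mem_filter] at hw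
      rw [max_eq_right hw.2.le]
    rw [h2]
    apply Finset.sum_le_sum_of_subset_of_nonneg (Finset.filter_subset _ _)
    intro i _ _
    have : 0 < max (len i) (a * N) := lt_of_lt_of_le haN (le_max_right _ _)
    positivity
  have h3 : ∑ w ∈ M, (1 + 2 * q / p) ^ (deg w) / max v0 (a * N) ≤
      ∑ w ∈ M, Real.exp Γ / (τ / 2 * N) := by
    apply Finset.sum_le_sum
    intro w hw
    have hpq : 0 ≤ 2 * q / p := by rw [hq, hp]; positivity
    have h4 : (1 + 2 * q / p) ^ (deg w) ≤ Real.exp Γ := by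
      have h5 : (1 + 2 * q / p) ≤ Real.exp (2 * q / p) := by
        have := Real.add_one_le_exp (2 * q / p)
        linarith
      calc (1 + 2 * q / p) ^ (deg w) ≤ (Real.exp (2 * q / p)) ^ (deg w) :=
            pow_le_pow_left₀ (by linarith) h5 _
        _ = Real.exp ((deg w : ℝ) * (2 * q / p)) := by rw [← Real.exp_nat_mul]
        _ ≤ Real.exp Γ := by
            apply Real.exp_le_exp.2
            have h6 : 2 * q / p = 16 * D / (τ * ρ * N) := by
              rw [hq, hp]; field_simp; ring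
            rw [h6]
            have h7 : (deg w : ℝ) * (16 * D / (τ * ρ * N)) =
              16 / (τ * ρ * N) * ((deg w : ℝ) * D) := by ring
            rw [h7]
            calc 16 / (τ * ρ * N) * ((deg w : ℝ) * D)
                ≤ 16 / (τ * ρ * N) * (C * N) :=
                  mul_le_mul_of_nonneg_left (hdeg w hw) (by positivity)
              _ = Γ := by rw [hΓ]; field_simp
    apply div_le_div₀ (Real.exp_pos _).le h4 (by positivity)
    exact hv0.trans (le_max_left _ _)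
  have h8 := (h1.trans hsum).trans h3
  rw [Finset.sum_const, nsmul_eq_mul] at h8
  have h10 : ((M.filter (fun w => len w < a * N)).card : ℝ) =
      ((M.filter (fun w => len w < a * N)).card : ℝ) * (1 / (a * N)) * (a * N) := by field_simp
  rw [h10]
  calc ((M.filter (fun w => len w < a * N)).card : ℝ) * (1 / (a * N)) * (a * N)
      ≤ (M.card : ℝ) * (Real.exp Γ / (τ / 2 * N)) * (a * N) :=
        mul_le_mul_of_nonneg_right h8 haN.le
    _ = (M.card : ℝ) * ε1 * (Real.exp Γ * Real.exp (-Γ)) := by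
        have h11 : Real.exp Γ / (τ / 2 * N) * (τ / 2 * N) = Real.exp Γ :=
          div_mul_cancel₀ _ (by positivity)
        calc (M.card : ℝ) * (Real.exp Γ / (τ / 2 * N)) * (a * N)
            = (M.card : ℝ) * ε1 * (Real.exp Γ / (τ / 2 * N) * (τ / 2 * N) * Real.exp (-Γ)) := by
              rw [ha]; ring
          _ = (M.card : ℝ) * ε1 * (Real.exp Γ * Real.exp (-Γ)) := by rw [h11]
    _ = (M.card : ℝ) * ε1 := by rw [← Real.exp_add]; simp

theorem lemmaE {τ ρ C : ℝ} (hτ0 : 0 < τ) (hτ : τ ≤ 1 / 4) (hρ0 : 0 < ρ) (hρ1 : ρ ≤ 1)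
    (hC : 0 ≤ C) :
    ∃ C0 : ℝ, 0 < C0 ∧ ∀ (W : Type u) (U : Type v) [Fintype W] [Fintype U] [DecidableEq W]
      [DecidableEq U] (G : SimpleGraph W) (T : SimpleGraph U) (D : ℕ) (I : Finset U)
      (A S : Finset W),
      (∀ u a b, T.Adj u a → T.Adj u b → ¬ T.Adj a b) → (∀ x, (nb T x).card ≤ D) →
      (∀ a ∈ I, ∀ b ∈ I, ¬ T.Adj a b) → I.card = D → C0 ≤ D →
      C0 * D ≤ (Fintype.card U : ℝ) →
      S ⊆ A → (S.card : ℝ) ≤ (1 - ρ) * D → (A.card : ℝ) ≤ 2 * D →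
      (∀ w ∈ A \ S, ((nb G w ∩ (A \ S)).card : ℝ) * D ≤ (1 - 2 * τ) * (Fintype.card U : ℝ)) →
      (∀ w ∈ A \ S, ((nb G w ∩ S).card : ℝ) * D ≤ C * (Fintype.card U : ℝ)) →
      EmbOn G T A := by
  classical
  obtain ⟨Γ, hΓ⟩ : ∃ Γ : ℝ, Γ = 16 * C / (τ * ρ) := ⟨_, rfl⟩
  obtain ⟨ε1, hε1⟩ : ∃ ε1 : ℝ, ε1 = τ * ρ / 24 := ⟨_, rfl⟩
  obtain ⟨a, ha⟩ : ∃ a : ℝ, a = ε1 * (τ / 2) * Real.exp (-Γ) := ⟨_, rfl⟩
  have hΓ0 : 0 ≤ Γ := by rw [hΓ]; positivity
  have hε10 : 0 < ε1 := by rw [hε1]; positivity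
  have ha0 : 0 < a := by rw [ha]; positivity
  obtain ⟨E, hE⟩ : ∃ E : ℝ, E = Real.exp (2 / a) := ⟨_, rfl⟩
  have hE0 : 0 < E := by rw [hE]; exact Real.exp_pos _
  refine ⟨20 / τ + 4 / ρ + 2 / a + 48 * E / (a * τ * ρ) + 96 * E ^ 2 / (a ^ 2 * τ * ρ),
    by positivity, ?_⟩
  intro W U _ _ _ _ G T D I A S hT hD hI hIc hC0D hC0N hSA hSc hAc hMdeg hSdeg
  obtain ⟨N, hN⟩ : ∃ N : ℝ, N = (Fintype.card U : ℝ) := ⟨_, rfl⟩
  rw [← hN] at hC0N
  simp only [← hN] at hMdeg hSdeg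
  have q1 : 0 < 20 / τ := by positivity
  have q2 : 0 < 4 / ρ := by positivity
  have q3 : 0 < 2 / a := by positivity
  have q4 : 0 < 48 * E / (a * τ * ρ) := by positivity
  have q5 : 0 < 96 * E ^ 2 / (a ^ 2 * τ * ρ) := by positivity
  have hDr : (0 : ℝ) < D := by linarith
  have hD0 : 0 < D := by exact_mod_cast hDr
  have hD1 : 4 / ρ ≤ D := by linarith
  have hρD : 1 ≤ ρ * D / 4 := by
    rw [div_le_iff₀ hρ0] at hD1; linarith
  have hN1 : 20 / τ * D ≤ N := le_trans (mul_le_mul_of_nonneg_right (by linarith) hDr.le) hC0N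
  have hN2' : 2 / a * D ≤ N := le_trans (mul_le_mul_of_nonneg_right (by linarith) hDr.le) hC0N
  have hN3' : 48 * E / (a * τ * ρ) * D ≤ N :=
    le_trans (mul_le_mul_of_nonneg_right (by linarith) hDr.le) hC0N
  have hN4' : 96 * E ^ 2 / (a ^ 2 * τ * ρ) * D ≤ N :=
    le_trans (mul_le_mul_of_nonneg_right (by linarith) hDr.le) hC0N
  have hN2 : 2 * D ≤ a * N := by
    rw [div_mul_eq_mul_div, div_le_iff₀ ha0] at hN2'; linarith
  have hN3 : 48 * E * D ≤ a * τ * ρ * N := by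
    rw [div_mul_eq_mul_div, div_le_iff₀ (by positivity)] at hN3'; linarith
  have hN4 : 96 * E ^ 2 * D ≤ a ^ 2 * τ * ρ * N := by
    rw [div_mul_eq_mul_div, div_le_iff₀ (by positivity)] at hN4'; linarith
  have hN0 : 0 < N := lt_of_lt_of_le (by positivity) hN1
  have hU : Nonempty U := by
    rw [← Fintype.card_pos_iff]
    rw [hN] at hN0
    exact_mod_cast hN0
  -- the reserved set
  have hnD : ⌊ρ * D / 2⌋₊ ≤ I.card := by
    rw [hIc]
    apply Nat.floor_le_of_le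
    nlinarith
  obtain ⟨R, hRI, hRc⟩ := Finset.exists_subset_card_eq hnD
  have hRc1 : (R.card : ℝ) ≤ ρ * D / 2 := by
    rw [hRc]; exact Nat.floor_le (by positivity)
  have hRc2 : ρ * D / 4 ≤ (R.card : ℝ) := by
    rw [hRc]
    have := Nat.lt_floor_add_one (ρ * D / 2)
    linarith
  have hRpos : 0 < R.card := by
    have : (0 : ℝ) < R.card := by linarith
    exact_mod_cast this
  have hI0c : ((I \ R).card : ℝ) = D - R.card := by
    rw [Finset.card_sdiff_of_subset hRI, Nat.cast_sub (Finset.card_le_card hRI), hIc]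
  have hI0D : (I \ R).card ≤ D := by
    rw [← hIc]; exact Finset.card_le_card Finset.sdiff_subset
  obtain ⟨V0, hV0c, hV0I, hV0R, hV0I0⟩ := exists_V0 T I R (I \ R) hD hD0 hτ0 hτ hIc.le hI0D hRpos
    (by rw [← hN]; exact hN1)
  rw [← hN] at hV0c
  simp only [← hN] at hV0R hV0I0
  -- placement of `S`
  obtain ⟨M, hM⟩ : ∃ M, M = A \ S := ⟨_, rfl⟩
  rw [← hM] at hMdeg hSdeg
  obtain ⟨p, hp⟩ : ∃ p : ℝ, p = ρ / 2 * D := ⟨_, rfl⟩
  obtain ⟨q, hq⟩ : ∃ q : ℝ, q = 4 / τ * D ^ 2 / N := ⟨_, rfl⟩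
  have hp0 : 0 < p := by rw [hp]; positivity
  have hq0 : 0 ≤ q := by rw [hq]; positivity
  have haN : 0 < a * N := by positivity
  obtain ⟨φ, hφ1, hφ2, hφ3⟩ := exists_placement (G := G) (T := T) M (a0 := a * N) (p := p) (q := q)
    (D := D) hq0 hp0 haN hN2 hD S (I \ R) (by rw [hI0c, hp]; linarith) (fun _ => V0)
    (fun w _ u hu => by rw [hq]; exact hV0I0 u hu)
  obtain ⟨Λ, hΛ⟩ : ∃ Λ : W → Finset U, Λ = lst G T (fun _ => V0) S φ := ⟨_, rfl⟩
  rw [← hΛ] at hφ3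
  -- dead vertices
  obtain ⟨dead, hdead⟩ : ∃ dead, dead = M.filter (fun w => ((Λ w).card : ℝ) < a * N) := ⟨_, rfl⟩
  have hMc : (M.card : ℝ) ≤ 2 * D := by
    refine le_trans ?_ hAc
    rw [hM]
    exact_mod_cast Finset.card_le_card Finset.sdiff_subset
  have hdeadc : (dead.card : ℝ) ≤ τ * ρ * D / 12 := by
    have h9 : (dead.card : ℝ) ≤ (M.card : ℝ) * ε1 := by
      rw [hdead]
      exact dead_bound M (fun w => ((Λ w).card : ℝ)) (fun w => (nb G w ∩ S).card) hDr hN0 hτ0 hρ0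
        hε10 hΓ ha hp hq hV0c hSdeg hφ3
    calc (dead.card : ℝ) ≤ (M.card : ℝ) * ε1 := h9
      _ ≤ 2 * D * ε1 := mul_le_mul_of_nonneg_right hMc hε10.le
      _ = τ * ρ * D / 12 := by rw [hε1]; ring
  -- the partial placement
  obtain ⟨B, hB⟩ : ∃ B, B = M \ dead := ⟨_, rfl⟩
  have hBM : B ⊆ M := by rw [hB]; exact Finset.sdiff_subset
  have hBc : (B.card : ℝ) ≤ 2 * D := le_trans (by exact_mod_cast Finset.card_le_card hBM) hMc
  have hBlo : ∀ w ∈ B, a * N ≤ ((Λ w).card : ℝ) := by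
    intro w hw
    rw [hB, Finset.mem_sdiff, hdead, Finset.mem_filter] at hw
    by_contra hcon
    push Not at hcon
    exact hw.2 ⟨hw.1, hcon⟩
  obtain ⟨P, hPB, g, hg1, hg2, hg3, hg4⟩ := exists_good (G := G) (T := T) (L := Λ)
    (l := 1 / (D : ℝ)) hT B (by positivity) hD (t := 2 / a) (Lo := a * N) haN hBlo (by
      intro w hw
      have h1 : (1 : ℝ) + 1 / (D : ℝ) * D = 2 := by field_simp; norm_num
      rw [h1]
      have h2 : ((nb G w ∩ B).card : ℝ) * D ≤ N := by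
        have h3 : ((nb G w ∩ B).card : ℝ) * D ≤ ((nb G w ∩ M).card : ℝ) * D := by
          apply mul_le_mul_of_nonneg_right _ hDr.le
          exact_mod_cast Finset.card_le_card (Finset.inter_subset_inter_left hBM)
        have h4 := hMdeg w (hBM hw)
        have h4' := mul_pos hτ0 hN0
        linarith
      have h5 : 2 / a * (a * N) ≤ 2 / a * ((Λ w).card : ℝ) :=
        mul_le_mul_of_nonneg_left (hBlo w hw) q3.le
      have h6 : 2 / a * (a * N) = 2 * N := by field_simp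
      linarith)
  have hexp : Real.exp (-(2 / a)) = 1 / E := by rw [Real.exp_neg, hE]; ring
  rw [← hN, hexp] at hg4
  have hleft1 : (B.card : ℝ) / (1 + 1 / (D : ℝ) * (a * N) * (1 / E)) ≤ τ * ρ * D / 24 :=
    num_left1 hDr ha0 hN0 hE0 hτ0 hρ0 hBc hN3
  have hleft2 : (B.card : ℝ) ^ 2 * N / (a * N * (1 / E)) ^ 2 ≤ τ * ρ * D / 24 :=
    num_left2 hDr ha0 hN0 hE0 (Nat.cast_nonneg _) hBc hN4
  have hleft : (((M \ P).card : ℕ) : ℝ) ≤ τ * ρ * D / 6 := by
    have h1 : M \ P ⊆ dead ∪ (B \ P) := by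
      intro w hw
      rw [Finset.mem_sdiff] at hw
      rw [Finset.mem_union, Finset.mem_sdiff, hB, Finset.mem_sdiff]
      tauto
    have h2 : ((M \ P).card : ℝ) ≤ (dead.card : ℝ) + ((B \ P).card : ℝ) := by
      exact_mod_cast (Finset.card_le_card h1).trans (Finset.card_union_le _ _)
    linarith
  -- rescue
  set Aw : W → Finset U := fun w => R.filter (fun r => ∀ y ∈ P, G.Adj w y → ¬ T.Adj (g y) r) with hAw
  have hAwc : ∀ w ∈ M \ P, (M \ P).card ≤ (Aw w).card := by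
    intro w hw
    have hwM : w ∈ M := (Finset.mem_sdiff.1 hw).1
    have h1 : R \ Aw w ⊆ (nb G w ∩ P).biUnion (fun y => nb T (g y) ∩ R) := by
      intro r hr
      rw [Finset.mem_sdiff, hAw, Finset.mem_filter] at hr
      obtain ⟨hrR, hr2⟩ := hr
      push Not at hr2
      obtain ⟨y, hyP, hadj, hTy⟩ := hr2 hrR
      rw [Finset.mem_biUnion]
      exact ⟨y, Finset.mem_inter.2 ⟨mem_nb.2 hadj, hyP⟩, Finset.mem_inter.2 ⟨mem_nb.2 hTy, hrR⟩⟩
    have h2 : ((R \ Aw w).card : ℝ) ≤ (1 - 2 * τ) * (1 + τ) * R.card := by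
      have h3 : ((R \ Aw w).card : ℝ) ≤ ∑ y ∈ nb G w ∩ P, ((nb T (g y) ∩ R).card : ℝ) := by
        exact_mod_cast (Finset.card_le_card h1).trans Finset.card_biUnion_le
      have h4 : ∑ y ∈ nb G w ∩ P, ((nb T (g y) ∩ R).card : ℝ) ≤
          ∑ y ∈ nb G w ∩ P, (1 + τ) * R.card * D / N := by
        apply Finset.sum_le_sum
        intro y hy
        have hyP := (Finset.mem_inter.1 hy).2
        have := hg2 y hyP
        rw [hΛ] at this
        exact hV0R _ (mem_lst.1 this).1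
      rw [Finset.sum_const, nsmul_eq_mul] at h4
      have h5 : ((nb G w ∩ P).card : ℝ) * D ≤ (1 - 2 * τ) * N := by
        refine le_trans ?_ (hMdeg w hwM)
        apply mul_le_mul_of_nonneg_right _ hDr.le
        exact_mod_cast Finset.card_le_card
          (Finset.inter_subset_inter_left (hPB.trans hBM))
      calc ((R \ Aw w).card : ℝ) ≤ ((nb G w ∩ P).card : ℝ) * ((1 + τ) * R.card * D / N) := h3.trans h4
        _ = (((nb G w ∩ P).card : ℝ) * D) * ((1 + τ) * R.card / N) := by ring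
        _ ≤ ((1 - 2 * τ) * N) * ((1 + τ) * R.card / N) :=
            mul_le_mul_of_nonneg_right h5 (by positivity)
        _ = (1 - 2 * τ) * (1 + τ) * R.card := by field_simp
    have h6 : ((R \ Aw w).card : ℝ) + ((Aw w).card : ℝ) = R.card := by
      have hsub : Aw w ⊆ R := Finset.filter_subset _ _
      exact_mod_cast Finset.card_sdiff_add_card_eq_card hsub
    have h7 : (((M \ P).card : ℕ) : ℝ) ≤ ((Aw w).card : ℝ) := by
      have h8 : τ * (R.card : ℝ) ≤ ((Aw w).card : ℝ) := by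
        have h9 : (0 : ℝ) ≤ R.card := by positivity
        have h12 := mul_nonneg (mul_nonneg hτ0.le hτ0.le) h9
        linarith
      have h10 : τ * (ρ * D / 4) ≤ τ * (R.card : ℝ) := mul_le_mul_of_nonneg_left hRc2 hτ0.le
      have h11 : 0 ≤ τ * ρ * D := by positivity
      linarith
    exact_mod_cast h7
  obtain ⟨h, hh1, hh2⟩ := hall_greedy (M \ P) Aw (M \ P).card le_rfl hAwc
  rw [hΛ] at hg2
  rw [hM] at hh1 hh2 hBM
  exact glue hI hRI hV0I φ g h hφ1 hφ2 hg1 (fun w hw => (mem_lst.1 (hg2 w hw)).1)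
    (fun w hw => (mem_lst.1 (hg2 w hw)).2) hg3 hh1
    (fun w hw => (Finset.mem_filter.1 (hh2 w hw)).1)
    (fun w hw => (Finset.mem_filter.1 (hh2 w hw)).2)
    (fun w hw => (Finset.mem_sdiff.1 (hBM (hPB hw))).2)

end Pool.Agent.H37
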