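import Pool.Agent.H37.HardCore

set_option autoImplicit false
set_option linter.unusedSectionVars false

/-!
Local inequality for the hard-core measure.
-/

namespace Pool.Agent.H37.Hard

open Finset

variable {W U : Type*} [Fintype W] [Fintype U] [DecidableEq W] [DecidableEq U]
variable {G : SimpleGraph W} {T : SimpleGraph U} {L : W → Finset U} {l : ℝ}

lemma un_apply (f : W → Option U) (w y : W) (u : U) :
    un G T f w u y = if y ∈ blk G T f w u then none else f y := rfl

lemma un_eq_some {f : W → Option U} {w y : W} {u v : U} (h : un G T f w u y = some v) :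
    f y = some v ∧ y ∉ blk G T f w u := by
  rw [un_apply] at h
  split_ifs at h with hb
  exact ⟨h, hb⟩

lemma un_mem {B : Finset W} {f : W → Option U} (hf : f ∈ conf G T L B) (w : W) (u : U) :
    un G T f w u ∈ conf G T L B := by
  rw [mem_conf] at hf ⊢
  obtain ⟨h1, h2, h3⟩ := hf
  refine ⟨?_, ?_, ?_⟩
  · intro y hy
    rw [un_apply]
    split_ifs
    · rfl
    · exact h1 y hy
  · intro y v hv
    exact h2 y v (un_eq_some hv).1
  · intro y y' hadj v v' hv hv'
    exact h3 y y' hadj v v' (un_eq_some hv).1 (un_eq_some hv').1

lemma blk_un (f : W → Option U) (w : W) (u : U) : blk G T (un G T f w u) w u = ∅ := by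
  rw [Finset.eq_empty_iff_forall_notMem]
  intro y hy
  rw [mem_blk] at hy
  obtain ⟨hadj, v, hv, hT⟩ := hy
  obtain ⟨h1, h2⟩ := un_eq_some hv
  exact h2 (mem_blk.2 ⟨hadj, v, h1, hT⟩)

lemma un_eq_self {f : W → Option U} {w : W} {u : U} (h : blk G T f w u = ∅) :
    un G T f w u = f := by
  funext y
  rw [un_apply, h]
  simp

open scoped Classical in
/-- candidate positions of a free vertex -/
noncomputable def cand (G : SimpleGraph W) (T : SimpleGraph U) (L : W → Finset U)
    (g : W → Option U) (u : U) (y : W) : Finset U :=
  (L y).filter (fun v => T.Adj u v ∧ ∀ y', G.Adj y y' → ∀ v', g y' = some v' → ¬ T.Adj v v')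

lemma mem_cand {g : W → Option U} {u v : U} {y : W} : v ∈ cand G T L g u y ↔
    v ∈ L y ∧ T.Adj u v ∧ ∀ y', G.Adj y y' → ∀ v', g y' = some v' → ¬ T.Adj v v' := by
  classical
  simp [cand]

open scoped Classical in
/-- free neighbours -/
noncomputable def free (G : SimpleGraph W) (B : Finset W) (g : W → Option U) (w : W) : Finset W :=
  B.filter (fun y => G.Adj w y ∧ g y = none)

lemma mem_free {B : Finset W} {g : W → Option U} {w y : W} : y ∈ free G B g w ↔
    y ∈ B ∧ G.Adj w y ∧ g y = none := by
  classical
  simp [free]

/-- the factors of the fibre -/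
noncomputable def fac (G : SimpleGraph W) (T : SimpleGraph U) (L : W → Finset U) (B : Finset W)
    (g : W → Option U) (w : W) (u : U) (y : W) : Finset (Option U) :=
  if y ∈ free G B g w then Finset.insertNone (cand G T L g u y) else {g y}

lemma fiber_eq (hT : ∀ u a b, T.Adj u a → T.Adj u b → ¬ T.Adj a b) {B : Finset W}
    {f : W → Option U} (hf : f ∈ conf G T L B) (w : W) (u : U) :
    (conf G T L B).filter (fun i => un G T i w u = un G T f w u) =
      Fintype.piFinset (fac G T L B (un G T f w u) w u) := by
  classical
  set g := un G T f w u with hg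
  have hgc : g ∈ conf G T L B := un_mem hf w u
  have hgb : blk G T g w u = ∅ := blk_un f w u
  ext i
  rw [Finset.mem_filter, Fintype.mem_piFinset]
  constructor
  · rintro ⟨hi, hig⟩ y
    unfold fac
    split_ifs with hy
    · rw [mem_free] at hy
      obtain ⟨hyB, hadj, hgy⟩ := hy
      rw [Finset.mem_insertNone]
      intro v hv
      rw [Option.mem_def] at hv
      have hyb : y ∈ blk G T i w u := by
        by_contra hcon
        have : g y = some v := by
          rw [← hig, un_apply, if_neg hcon, hv]
        rw [hgy] at this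
        exact absurd this (by simp)
      obtain ⟨_, v', hv', hTv⟩ := mem_blk.1 hyb
      rw [hv] at hv'
      simp at hv'
      subst hv'
      rw [mem_cand]
      refine ⟨(mem_conf.1 hi).2.1 y v hv, hTv.symm, ?_⟩
      intro y' hadj' v' hv'
      rw [← hig] at hv'
      exact (mem_conf.1 hi).2.2 y y' hadj' v v' hv (un_eq_some hv').1
    · rw [Finset.mem_singleton]
      rw [mem_free] at hy
      push Not at hy
      rw [← hig]
      rw [un_apply]
      split_ifs with hb
      · obtain ⟨hadj, v, hv, hTv⟩ := mem_blk.1 hb
        have hyB : y ∈ B := by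
          by_contra hcon
          rw [(mem_conf.1 hi).1 y hcon] at hv
          simp at hv
        have := hy hyB hadj
        rw [← hig, un_apply, if_pos hb] at this
        exact absurd rfl this
      · rfl
  · intro hi
    have key : ∀ y, (y ∈ free G B g w ∧ (i y = none ∨ ∃ v ∈ cand G T L g u y, i y = some v)) ∨
        (y ∉ free G B g w ∧ i y = g y) := by
      intro y
      have := hi y
      unfold fac at this
      split_ifs at this with hy
      · left
        refine ⟨hy, ?_⟩
        rw [Finset.mem_insertNone] at this
        cases hiy : i y with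
        | none => left; rfl
        | some v =>
          right
          exact ⟨v, this v (by rw [hiy]; rfl), rfl⟩
      · right
        exact ⟨hy, by simpa using this⟩
    have hsome : ∀ y v, i y = some v → (y ∈ free G B g w ∧ v ∈ cand G T L g u y) ∨ g y = some v := by
      intro y v hv
      rcases key y with ⟨h1, h2⟩ | ⟨h1, h2⟩
      · rcases h2 with h2 | ⟨v', h2, h3⟩
        · rw [h2] at hv; simp at hv
        · rw [hv] at h3
          simp at h3
          subst h3
          exact Or.inl ⟨h1, h2⟩
      · right; rw [← h2]; exact hv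
    have hic : i ∈ conf G T L B := by
      rw [mem_conf]
      refine ⟨?_, ?_, ?_⟩
      · intro y hy
        rcases key y with ⟨h1, _⟩ | ⟨_, h2⟩
        · exact absurd (mem_free.1 h1).1 hy
        · rw [h2]; exact (mem_conf.1 hgc).1 y hy
      · intro y v hv
        rcases hsome y v hv with ⟨_, h2⟩ | h2
        · exact (mem_cand.1 h2).1
        · exact (mem_conf.1 hgc).2.1 y v h2
      · intro y y' hadj v v' hv hv'
        rcases hsome y v hv with ⟨_, h2⟩ | h2
        · rcases hsome y' v' hv' with ⟨_, h2'⟩ | h2'
          · exact hT u v v' (mem_cand.1 h2).2.1 (mem_cand.1 h2').2.1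
          · exact (mem_cand.1 h2).2.2 y' hadj v' h2'
        · rcases hsome y' v' hv' with ⟨_, h2'⟩ | h2'
          · intro hcon
            exact (mem_cand.1 h2').2.2 y hadj.symm v h2 hcon.symm
          · exact (mem_conf.1 hgc).2.2 y y' hadj v v' h2 h2'
    refine ⟨hic, ?_⟩
    funext y
    rw [un_apply]
    rcases key y with ⟨h1, h2⟩ | ⟨h1, h2⟩
    · rw [(mem_free.1 h1).2.2]
      split_ifs with hb
      · rfl
      · rcases h2 with h2 | ⟨v, h2, h3⟩
        · exact h2
        · exact absurd (mem_blk.2 ⟨(mem_free.1 h1).2.1, v, h3, (mem_cand.1 h2).2.1.symm⟩) hb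
    · split_ifs with hb
      · exfalso
        obtain ⟨hadj, v, hv, hTv⟩ := mem_blk.1 hb
        rw [h2] at hv
        have : y ∈ blk G T g w u := mem_blk.2 ⟨hadj, v, hv, hTv⟩
        rw [hgb] at this
        simp at this
      · exact h2

end Pool.Agent.H37.Hard
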