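import Pool.Agent.H37.HardCore

set_option autoImplicit false
set_option linter.unusedSectionVars false

/-!
Random thinning of a vertex set (Chernoff bound by weights on the powerset).
-/

namespace Pool.Agent.H37.Thin

open Finset Pool.Agent.H37.Hard

variable {W : Type*} [Fintype W] [DecidableEq W]

/-- the product weight of a subset -/
noncomputable def mu (p : ℝ) (A X : Finset W) : ℝ := (∏ _i ∈ X, p) * ∏ _i ∈ A \ X, (1 - p)

lemma mu_nonneg {p : ℝ} (h0 : 0 ≤ p) (h1 : p ≤ 1) (A X : Finset W) : 0 ≤ mu p A X := by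
  unfold mu
  apply mul_nonneg
  · exact Finset.prod_nonneg (fun _ _ => h0)
  · exact Finset.prod_nonneg (fun _ _ => by linarith)

lemma sum_mu (p : ℝ) (A : Finset W) : ∑ X ∈ A.powerset, mu p A X = 1 := by
  unfold mu
  rw [← Finset.prod_add]
  simp

lemma sum_mu_notMem (p : ℝ) (A : Finset W) {a : W} (ha : a ∈ A) :
    ∑ X ∈ A.powerset, (if a ∉ X then mu p A X else 0) = 1 - p := by
  have h1 : ∀ X ∈ A.powerset, (if a ∉ X then mu p A X else 0) =
      (∏ i ∈ X, (if i = a then 0 else p)) * ∏ i ∈ A \ X, (1 - p) := by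
    intro X _
    by_cases h : a ∈ X
    · rw [Finset.prod_eq_zero h (by simp)]
      simp [h]
    · rw [if_pos h]
      unfold mu
      congr 1
      apply Finset.prod_congr rfl
      intro i hi
      rw [if_neg]
      intro h'; exact h (h' ▸ hi)
  rw [Finset.sum_congr rfl h1, ← Finset.prod_add, ← Finset.mul_prod_erase A _ ha]
  have h2 : ∏ x ∈ A.erase a, ((if x = a then 0 else p) + (1 - p)) = 1 := by
    apply Finset.prod_eq_one
    intro x hx
    rw [if_neg (Finset.ne_of_mem_erase hx)]
    ring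
  rw [h2]
  simp

lemma sum_mu_exp (p θ : ℝ) (A N : Finset W) :
    ∑ X ∈ A.powerset, mu p A X * Real.exp (θ * ((N ∩ X).card : ℝ)) =
      ∏ i ∈ A, (p * (if i ∈ N then Real.exp θ else 1) + (1 - p)) := by
  rw [Finset.prod_add]
  apply Finset.sum_congr rfl
  intro X _
  unfold mu
  have h1 : ∏ i ∈ X, p * (if i ∈ N then Real.exp θ else 1) =
      (∏ _i ∈ X, p) * Real.exp (θ * ((N ∩ X).card : ℝ)) := by
    rw [Finset.prod_mul_distrib]
    congr 1
    rw [Finset.prod_ite, Finset.prod_const, Finset.prod_const_one, mul_one, ← Real.exp_nat_mul,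
      mul_comm]
    congr 3
    congr 1
    ext i
    simp [and_comm]
  rw [h1]
  ring

lemma tail {p d ε : ℝ} (h0 : 0 ≤ p) (h1 : p ≤ 1) (hd : 0 ≤ d) (hε : 0 < ε) (hε2 : ε ≤ 2)
    (A N : Finset W) (hN : ((N ∩ A).card : ℝ) ≤ d) :
    ∑ X ∈ A.powerset, (if (p + ε) * d < ((N ∩ X).card : ℝ) then mu p A X else 0) ≤
      Real.exp (-(d * ε ^ 2 / 4)) := by
  set θ : ℝ := ε / 2 with hθ
  have hθ0 : 0 < θ := by positivity
  have hθ1 : θ ≤ 1 := by rw [hθ]; linarith
  have h2 : ∑ X ∈ A.powerset, (if (p + ε) * d < ((N ∩ X).card : ℝ) then mu p A X else 0) ≤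
      ∑ X ∈ A.powerset, Real.exp (-(θ * ((p + ε) * d))) *
        (mu p A X * Real.exp (θ * ((N ∩ X).card : ℝ))) := by
    apply Finset.sum_le_sum
    intro X _
    have hm := mu_nonneg h0 h1 A X
    split_ifs with h
    · have h3 : 1 ≤ Real.exp (-(θ * ((p + ε) * d))) * Real.exp (θ * ((N ∩ X).card : ℝ)) := by
        rw [← Real.exp_add]
        apply Real.one_le_exp
        nlinarith
      calc mu p A X = mu p A X * 1 := by ring
        _ ≤ mu p A X * (Real.exp (-(θ * ((p + ε) * d))) * Real.exp (θ * ((N ∩ X).card : ℝ))) :=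
            mul_le_mul_of_nonneg_left h3 hm
        _ = _ := by ring
    · positivity
  refine h2.trans ?_
  rw [← Finset.mul_sum, sum_mu_exp]
  have hexp : Real.exp θ ≤ 1 + θ + θ ^ 2 := by
    have h4 := Real.abs_exp_sub_one_sub_id_le (x := θ) (by rw [abs_of_pos hθ0]; exact hθ1)
    have h5 := (abs_le.1 h4).2
    linarith
  have h6 : ∏ i ∈ A, (p * (if i ∈ N then Real.exp θ else 1) + (1 - p)) ≤
      Real.exp (p * (θ + θ ^ 2) * d) := by
    have h7 : ∏ i ∈ A, (p * (if i ∈ N then Real.exp θ else 1) + (1 - p)) ≤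
        ∏ i ∈ A, (if i ∈ N then Real.exp (p * (θ + θ ^ 2)) else 1) := by
      apply Finset.prod_le_prod
      · intro i _
        have : 0 ≤ p * (if i ∈ N then Real.exp θ else 1) := by
          apply mul_nonneg h0
          split_ifs
          · exact (Real.exp_pos _).le
          · norm_num
        linarith
      · intro i _
        split_ifs
        · have h8 := Real.add_one_le_exp (p * (θ + θ ^ 2))
          have h9 := mul_le_mul_of_nonneg_left hexp h0
          nlinarith
        · linarith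
    refine h7.trans ?_
    rw [Finset.prod_ite, Finset.prod_const, Finset.prod_const_one, mul_one, ← Real.exp_nat_mul]
    apply Real.exp_le_exp.2
    have h10 : (A.filter (fun i => i ∈ N)).card = (N ∩ A).card := by
      congr 1
      ext i
      simp [and_comm]
    rw [h10, mul_comm]
    apply mul_le_mul_of_nonneg_left hN
    positivity
  calc Real.exp (-(θ * ((p + ε) * d))) * ∏ i ∈ A, (p * (if i ∈ N then Real.exp θ else 1) + (1 - p))
      ≤ Real.exp (-(θ * ((p + ε) * d))) * Real.exp (p * (θ + θ ^ 2) * d) :=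
        mul_le_mul_of_nonneg_left h6 (Real.exp_pos _).le
    _ = Real.exp (-(θ * ((p + ε) * d)) + p * (θ + θ ^ 2) * d) := by rw [Real.exp_add]
    _ ≤ Real.exp (-(d * ε ^ 2 / 4)) := by
        apply Real.exp_le_exp.2
        have h11 : p * θ ^ 2 * d ≤ 1 * θ ^ 2 * d := by
          apply mul_le_mul_of_nonneg_right _ hd
          apply mul_le_mul_of_nonneg_right h1 (by positivity)
        have h12 : θ * ε * d = d * ε ^ 2 / 2 := by rw [hθ]; ring
        have h13 : θ ^ 2 * d = d * ε ^ 2 / 4 := by rw [hθ]; ring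
        nlinarith

theorem thinning (G : SimpleGraph W) (A : Finset W) {d p ε : ℝ} (hd0 : 0 ≤ d)
    (hd : ∀ w ∈ A, ((nb G w ∩ A).card : ℝ) ≤ d) (hp0 : 0 ≤ p) (hp1 : p ≤ 1) (hε : 0 < ε)
    (hε2 : ε ≤ 2) :
    ∃ X ⊆ A, ((A \ X).card : ℝ) +
      ((A.filter (fun w => (p + ε) * d < ((nb G w ∩ X).card : ℝ))).card : ℝ) ≤
      (1 - p) * A.card + A.card * Real.exp (-(d * ε ^ 2 / 4)) := by
  set Y : Finset W → ℝ := fun X => ((A \ X).card : ℝ) +
      ((A.filter (fun w => (p + ε) * d < ((nb G w ∩ X).card : ℝ))).card : ℝ) with hY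
  set K : ℝ := (1 - p) * A.card + A.card * Real.exp (-(d * ε ^ 2 / 4)) with hK
  have hsum : ∑ X ∈ A.powerset, mu p A X * Y X ≤ ∑ X ∈ A.powerset, mu p A X * K := by
    rw [← Finset.sum_mul, sum_mu, one_mul]
    have h1 : ∀ X ∈ A.powerset, mu p A X * Y X =
        ∑ a ∈ A, (if a ∉ X then mu p A X else 0) +
        ∑ a ∈ A, (if (p + ε) * d < ((nb G a ∩ X).card : ℝ) then mu p A X else 0) := by
      intro X _
      simp only [hY]
      rw [mul_add]
      congr 1
      · have h2 : A \ X = A.filter (fun a => a ∉ X) := by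
          ext a; simp
        rw [h2, Finset.card_filter]
        push_cast
        rw [Finset.mul_sum]
        apply Finset.sum_congr rfl
        intro a _
        split_ifs <;> simp
      · rw [Finset.card_filter]
        push_cast
        rw [Finset.mul_sum]
        apply Finset.sum_congr rfl
        intro a _
        split_ifs <;> simp
    rw [Finset.sum_congr rfl h1, Finset.sum_add_distrib, Finset.sum_comm,
      Finset.sum_comm (s := A.powerset)]
    rw [hK]
    apply add_le_add
    · rw [Finset.sum_congr rfl (fun a ha => sum_mu_notMem p A ha), Finset.sum_const, nsmul_eq_mul,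
        mul_comm]
    · calc ∑ a ∈ A, ∑ X ∈ A.powerset,
            (if (p + ε) * d < ((nb G a ∩ X).card : ℝ) then mu p A X else 0)
          ≤ ∑ a ∈ A, Real.exp (-(d * ε ^ 2 / 4)) :=
            Finset.sum_le_sum (fun a ha => tail hp0 hp1 hd0 hε hε2 A (nb G a) (hd a ha))
        _ = A.card * Real.exp (-(d * ε ^ 2 / 4)) := by rw [Finset.sum_const, nsmul_eq_mul]
  by_contra hcon
  push Not at hcon
  have hlt : ∀ X ∈ A.powerset, mu p A X * K ≤ mu p A X * Y X := by
    intro X hX
    exact mul_le_mul_of_nonneg_left (hcon X (Finset.mem_powerset.1 hX)).le (mu_nonneg hp0 hp1 A X)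
  obtain ⟨X, hX, hXm⟩ : ∃ X ∈ A.powerset, 0 < mu p A X := by
    by_contra hc
    push Not at hc
    have := Finset.sum_nonpos hc
    rw [sum_mu] at this
    linarith
  have := Finset.sum_lt_sum hlt ⟨X, hX, mul_lt_mul_of_pos_left (hcon X (Finset.mem_powerset.1 hX)) hXm⟩
  linarith

end Pool.Agent.H37.Thin
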