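import Pool.Agent.H37.Greedy
import Pool.Agent.H37.Thinning

set_option autoImplicit false
set_option linter.unusedSectionVars false

/-!
Splitting a core: a small part `S` and a rest whose inner degrees are below the core degree.
-/

namespace Pool.Agent.H37

open Finset Pool.Agent.H37.Hard

section

variable {W : Type*} [Fintype W] [DecidableEq W]

lemma card_inter_mono (G : SimpleGraph W) (w : W) {X Y : Finset W} (h : X ⊆ Y) :
    ((nb G w ∩ X).card : ℝ) ≤ ((nb G w ∩ Y).card : ℝ) := by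
  exact_mod_cast Finset.card_le_card (Finset.inter_subset_inter_left h)

/-- Markov bound for degrees -/
lemma markov_deg (G : SimpleGraph W) (X : Finset W) {x : ℝ} :
    ((X.filter (fun w => x < ((nb G w ∩ X).card : ℝ))).card : ℝ) * x ≤ (dd G X : ℝ) := by
  have h1 : ∑ w ∈ X.filter (fun w => x < ((nb G w ∩ X).card : ℝ)), x ≤
      ∑ w ∈ X, ((nb G w ∩ X).card : ℝ) := by
    calc ∑ w ∈ X.filter (fun w => x < ((nb G w ∩ X).card : ℝ)), x
        ≤ ∑ w ∈ X.filter (fun w => x < ((nb G w ∩ X).card : ℝ)), ((nb G w ∩ X).card : ℝ) :=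
          Finset.sum_le_sum (fun w hw => (Finset.mem_filter.1 hw).2.le)
      _ ≤ ∑ w ∈ X, ((nb G w ∩ X).card : ℝ) :=
          Finset.sum_le_sum_of_subset_of_nonneg (Finset.filter_subset _ _)
            (fun _ _ _ => by positivity)
  rw [Finset.sum_const, nsmul_eq_mul] at h1
  refine h1.trans ?_
  unfold dd
  push_cast
  exact le_rfl

/-- the conclusion of the splitting lemma -/
def Split (G : SimpleGraph W) (A : Finset W) (Δ d0 : ℝ) : Prop :=
  ∃ S ⊆ A, (S.card : ℝ) ≤ (1 - 1 / 2000) * Δ ∧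
    ∀ w ∈ A \ S, ((nb G w ∩ (A \ S)).card : ℝ) ≤ (1 - 1 / 2000) * d0 ∧
      ((nb G w ∩ S).card : ℝ) ≤ 4000 * d0

/-- almost regular case -/
lemma split_caseC (G : SimpleGraph W) (A : Finset W) {Δ d0 : ℝ} (hΔ : 0 < Δ)
    (hd0 : 150000 ≤ d0) (hcore : ∀ v ∈ A, d0 < ((nb G v ∩ A).card : ℝ))
    (hdd : (dd G A : ℝ) ≤ 2 * d0 * Δ) (hA : (A.card : ℝ) ≤ 2 * Δ)
    (hAlo : (1.993 : ℝ) * Δ ≤ (A.card : ℝ)) : Split G A Δ d0 := by
  classical
  have hd0p : 0 < d0 := by linarith
  obtain ⟨H, hH⟩ : ∃ H, H = A.filter (fun w => 1.1 * d0 < ((nb G w ∩ A).card : ℝ)) := ⟨_, rfl⟩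
  have hHA : H ⊆ A := by rw [hH]; exact Finset.filter_subset _ _
  have hHc : (H.card : ℝ) ≤ 0.07 * Δ := by
    have h1 : ∑ w ∈ H, (0.1 * d0) ≤ ∑ w ∈ A, (((nb G w ∩ A).card : ℝ) - d0) := by
      calc ∑ w ∈ H, (0.1 * d0) ≤ ∑ w ∈ H, (((nb G w ∩ A).card : ℝ) - d0) := by
            apply Finset.sum_le_sum
            intro w hw
            rw [hH, Finset.mem_filter] at hw
            linarith [hw.2]
        _ ≤ ∑ w ∈ A, (((nb G w ∩ A).card : ℝ) - d0) :=
            Finset.sum_le_sum_of_subset_of_nonneg hHA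
              (fun w hw _ => by linarith [hcore w hw])
    rw [Finset.sum_const, nsmul_eq_mul, Finset.sum_sub_distrib, Finset.sum_const, nsmul_eq_mul] at h1
    have h2 : ∑ w ∈ A, ((nb G w ∩ A).card : ℝ) = (dd G A : ℝ) := by unfold dd; push_cast; rfl
    rw [h2] at h1
    have h3 : (1.993 : ℝ) * Δ * d0 ≤ (A.card : ℝ) * d0 := mul_le_mul_of_nonneg_right hAlo hd0p.le
    have h4 : (H.card : ℝ) * (0.1 * d0) ≤ 0.007 * Δ * d0 := by linarith
    have h5 : (H.card : ℝ) * 0.1 ≤ 0.007 * Δ := by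
      have : (H.card : ℝ) * 0.1 * d0 ≤ 0.007 * Δ * d0 := by linarith
      exact le_of_mul_le_mul_right this hd0p
    linarith
  obtain ⟨A', hA'⟩ : ∃ A', A' = A \ H := ⟨_, rfl⟩
  have hA'A : A' ⊆ A := by rw [hA']; exact Finset.sdiff_subset
  have hdeg : ∀ w ∈ A', ((nb G w ∩ A).card : ℝ) ≤ 1.1 * d0 := by
    intro w hw
    rw [hA', Finset.mem_sdiff, hH, Finset.mem_filter] at hw
    by_contra hcon
    push Not at hcon
    exact hw.2 ⟨hw.1, hcon⟩
  obtain ⟨X, hXA', hX⟩ := Thin.thinning G A' (d := 1.1 * d0) (p := 0.6) (ε := 0.05) (by positivity)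
    (fun w hw => (card_inter_mono G w hA'A).trans (hdeg w hw)) (by norm_num) (by norm_num)
    (by norm_num) (by norm_num)
  obtain ⟨Q, hQ⟩ : ∃ Q, Q = A'.filter (fun w => (0.6 + 0.05 : ℝ) * (1.1 * d0) <
    ((nb G w ∩ X).card : ℝ)) := ⟨_, rfl⟩
  rw [← hQ] at hX
  have hexp : Real.exp (-(1.1 * d0 * 0.05 ^ 2 / 4)) ≤ 0.01 := by
    have h1 : (100 : ℝ) ≤ Real.exp (1.1 * d0 * 0.05 ^ 2 / 4) := by
      have h2 := Real.add_one_le_exp (1.1 * d0 * 0.05 ^ 2 / 4)
      linarith
    rw [Real.exp_neg]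
    calc (Real.exp (1.1 * d0 * 0.05 ^ 2 / 4))⁻¹ ≤ (100 : ℝ)⁻¹ :=
          inv_anti₀ (by norm_num) h1
      _ = 0.01 := by norm_num
  have hA'c : (A'.card : ℝ) ≤ 2 * Δ :=
    le_trans (by exact_mod_cast Finset.card_le_card hA'A) hA
  have hsum : ((A' \ X).card : ℝ) + (Q.card : ℝ) ≤ 0.82 * Δ := by
    have h1 : (A'.card : ℝ) * Real.exp (-(1.1 * d0 * 0.05 ^ 2 / 4)) ≤ (A'.card : ℝ) * 0.01 :=
      mul_le_mul_of_nonneg_left hexp (by positivity)
    linarith
  obtain ⟨S, hS⟩ : ∃ S, S = H ∪ ((A' \ X) ∪ Q) := ⟨_, rfl⟩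
  have hQA : Q ⊆ A := by
    rw [hQ]; exact (Finset.filter_subset _ _).trans hA'A
  have hSA : S ⊆ A := by
    rw [hS]
    exact Finset.union_subset hHA (Finset.union_subset (Finset.sdiff_subset.trans hA'A) hQA)
  have hSc : (S.card : ℝ) ≤ (H.card : ℝ) + (((A' \ X).card : ℝ) + (Q.card : ℝ)) := by
    rw [hS]
    exact_mod_cast (Finset.card_union_le _ _).trans
      (Nat.add_le_add_left (Finset.card_union_le _ _) _)
  refine ⟨S, hSA, by linarith, ?_⟩
  have hM : ∀ w ∈ A \ S, w ∈ X ∧ w ∉ Q ∧ w ∈ A' := by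
    intro w hw
    rw [Finset.mem_sdiff, hS, Finset.mem_union, Finset.mem_union, Finset.mem_sdiff] at hw
    have h1 : w ∈ A' := by
      rw [hA', Finset.mem_sdiff]; tauto
    tauto
  intro w hw
  obtain ⟨hwX, hwQ, hwA'⟩ := hM w hw
  have hsub : A \ S ⊆ X := fun v hv => (hM v hv).1
  constructor
  · have h1 : ((nb G w ∩ X).card : ℝ) ≤ (0.6 + 0.05 : ℝ) * (1.1 * d0) := by
      by_contra hcon
      push Not at hcon
      exact hwQ (by rw [hQ, Finset.mem_filter]; exact ⟨hwA', hcon⟩)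
    have h2 := card_inter_mono G w hsub
    linarith
  · have h1 := card_inter_mono G w hSA
    have h2 := hdeg w hwA'
    linarith

lemma split (G : SimpleGraph W) (A : Finset W) {Δ d0 : ℝ} (hΔ : 0 < Δ)
    (hd0 : 150000 ≤ d0) (hcore : ∀ v ∈ A, d0 < ((nb G v ∩ A).card : ℝ))
    (hdd : (dd G A : ℝ) ≤ 2 * d0 * Δ) (hA : (A.card : ℝ) ≤ 2 * Δ) : Split G A Δ d0 := by
  classical
  have hd0p : 0 < d0 := by linarith
  have hdΔ : 0 < d0 * Δ := by positivity
  -- the minimiser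
  obtain ⟨M0, hM0, hmin⟩ := Finset.exists_min_image A.powerset
    (fun X => (dd G X : ℝ) - 2 * (1 - 1 / 2000) * d0 * X.card)
    ⟨∅, Finset.empty_mem_powerset A⟩
  rw [Finset.mem_powerset] at hM0
  have hMdeg : ∀ w ∈ M0, ((nb G w ∩ M0).card : ℝ) ≤ (1 - 1 / 2000) * d0 := by
    intro w hw
    have h1 := hmin (M0.erase w) (Finset.mem_powerset.2 ((Finset.erase_subset _ _).trans hM0))
    have h2 : (dd G M0 : ℝ) = dd G (M0.erase w) + 2 * (nb G w ∩ M0).card := by
      exact_mod_cast dd_erase G hw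
    have h3 : ((M0.erase w).card : ℝ) + 1 = M0.card := by
      exact_mod_cast Finset.card_erase_add_one hw
    have h4 : ((M0.erase w).card : ℝ) = M0.card - 1 := by linarith
    simp only [h2, h4] at h1
    linarith
  have hSdeg : ∀ w ∈ A \ M0, (1 - 1 / 2000) * d0 ≤ ((nb G w ∩ M0).card : ℝ) := by
    intro w hw
    rw [Finset.mem_sdiff] at hw
    have h1 := hmin (insert w M0) (Finset.mem_powerset.2 (Finset.insert_subset hw.1 hM0))
    have h2 : (dd G (insert w M0) : ℝ) = dd G M0 + 2 * (nb G w ∩ M0).card := by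
      exact_mod_cast dd_insert G hw.2
    have h3 : ((insert w M0).card : ℝ) = M0.card + 1 := by
      exact_mod_cast Finset.card_insert_of_notMem hw.2
    simp only [h2, h3] at h1
    linarith
  obtain ⟨S0, hS0⟩ : ∃ S0, S0 = A \ M0 := ⟨_, rfl⟩
  rw [← hS0] at hSdeg
  have hS0A : S0 ⊆ A := by rw [hS0]; exact Finset.sdiff_subset
  have hdisj : Disjoint S0 M0 := by rw [hS0]; exact Finset.sdiff_disjoint
  have hunion : S0 ∪ M0 = A := by rw [hS0]; exact Finset.sdiff_union_of_subset hM0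
  have hAcard : (A.card : ℝ) = S0.card + M0.card := by
    rw [← hunion, Finset.card_union_of_disjoint hdisj]; push_cast; ring
  -- high degree vertices
  obtain ⟨H, hH⟩ : ∃ H, H = A.filter (fun w => 4000 * d0 < ((nb G w ∩ A).card : ℝ)) := ⟨_, rfl⟩
  have hHA : H ⊆ A := by rw [hH]; exact Finset.filter_subset _ _
  have hHc : (H.card : ℝ) ≤ 1 / 2000 * Δ := by
    have h1 := markov_deg G A (x := 4000 * d0)
    rw [← hH] at h1
    have h2 : (H.card : ℝ) * 2000 * (2 * d0) ≤ Δ * (2 * d0) := by linarith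
    have h3 := le_of_mul_le_mul_right h2 (by positivity)
    linarith
  have hHdeg : ∀ w ∈ A, w ∉ H → ((nb G w ∩ A).card : ℝ) ≤ 4000 * d0 := by
    intro w hw hwH
    by_contra hcon
    push Not at hcon
    exact hwH (by rw [hH, Finset.mem_filter]; exact ⟨hw, hcon⟩)
  by_cases hcA : (S0.card : ℝ) ≤ 0.999 * Δ
  · -- case A
    have hSA : S0 ∪ H ⊆ A := Finset.union_subset hS0A hHA
    refine ⟨S0 ∪ H, hSA, ?_, ?_⟩
    · have h1 : ((S0 ∪ H).card : ℝ) ≤ S0.card + H.card := by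
        exact_mod_cast Finset.card_union_le _ _
      linarith
    · have hsub : A \ (S0 ∪ H) ⊆ M0 := by
        intro w hw
        rw [Finset.mem_sdiff, Finset.mem_union, hS0, Finset.mem_sdiff] at hw
        tauto
      intro w hw
      constructor
      · exact (card_inter_mono G w hsub).trans (hMdeg w (hsub hw))
      · rw [Finset.mem_sdiff, Finset.mem_union] at hw
        exact (card_inter_mono G w hSA).trans (hHdeg w hw.1 (by tauto))
  · push Not at hcA
    -- few edges inside both parts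
    have hx : (1 - 1 / 2000) * d0 * (S0.card : ℝ) ≤ (xx G S0 M0 : ℝ) := by
      have h1 : ∑ w ∈ S0, (1 - 1 / 2000) * d0 ≤ ∑ w ∈ S0, ((nb G w ∩ M0).card : ℝ) :=
        Finset.sum_le_sum (fun w hw => hSdeg w hw)
      rw [Finset.sum_const, nsmul_eq_mul] at h1
      unfold xx
      push_cast
      linarith
    have hddA : (dd G A : ℝ) = dd G S0 + dd G M0 + 2 * xx G S0 M0 := by
      rw [← hunion]
      exact_mod_cast dd_union G hdisj
    have hxlo : (0.9985 : ℝ) * (d0 * Δ) ≤ (xx G S0 M0 : ℝ) := by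
      have h1 : (1 - 1 / 2000) * d0 * (0.999 * Δ) ≤ (1 - 1 / 2000) * d0 * (S0.card : ℝ) :=
        mul_le_mul_of_nonneg_left hcA.le (by linarith)
      linarith
    have hM0nn : (0 : ℝ) ≤ dd G M0 := by positivity
    have hS0nn : (0 : ℝ) ≤ dd G S0 := by positivity
    have hsmall : (dd G S0 : ℝ) + dd G M0 ≤ 0.003 * (d0 * Δ) := by linarith
    by_cases hcB : (M0.card : ℝ) ≤ 0.994 * Δ
    · -- case B
      obtain ⟨Q, hQ⟩ : ∃ Q, Q = S0.filter (fun w => (1 - 1 / 2000) * d0 <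
        ((nb G w ∩ S0).card : ℝ)) := ⟨_, rfl⟩
      have hQS : Q ⊆ S0 := by rw [hQ]; exact Finset.filter_subset _ _
      have hQc : (Q.card : ℝ) ≤ 0.0031 * Δ := by
        have h1 := markov_deg G S0 (x := (1 - 1 / 2000) * d0)
        rw [← hQ] at h1
        have h2 : (Q.card : ℝ) * (1 - 1 / 2000) * d0 ≤ 0.003 * Δ * d0 := by linarith
        have h3 := le_of_mul_le_mul_right h2 hd0p
        linarith
      have hSA : M0 ∪ (Q ∪ H) ⊆ A :=
        Finset.union_subset hM0 (Finset.union_subset (hQS.trans hS0A) hHA)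
      refine ⟨M0 ∪ (Q ∪ H), hSA, ?_, ?_⟩
      · have h1 : ((M0 ∪ (Q ∪ H)).card : ℝ) ≤ M0.card + (Q.card + H.card) := by
          exact_mod_cast (Finset.card_union_le _ _).trans
            (Nat.add_le_add_left (Finset.card_union_le _ _) _)
        linarith
      · have hM : ∀ w ∈ A \ (M0 ∪ (Q ∪ H)), w ∈ S0 ∧ w ∉ Q ∧ w ∉ H := by
          intro w hw
          rw [Finset.mem_sdiff, Finset.mem_union, Finset.mem_union] at hw
          have : w ∈ S0 := by rw [hS0, Finset.mem_sdiff]; tauto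
          tauto
        intro w hw
        obtain ⟨h1, h2, h3⟩ := hM w hw
        constructor
        · refine (card_inter_mono G w (fun v hv => (hM v hv).1)).trans ?_
          by_contra hcon
          push Not at hcon
          exact h2 (by rw [hQ, Finset.mem_filter]; exact ⟨h1, hcon⟩)
        · exact (card_inter_mono G w hSA).trans (hHdeg w (Finset.mem_sdiff.1 hw).1 h3)
    · -- case C
      push Not at hcB
      exact split_caseC G A hΔ hd0 hcore hdd hA (by linarith)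

end

end Pool.Agent.H37
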