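import Pool.Agent.H37.HardCore3

set_option autoImplicit false
set_option linter.unusedSectionVars false

/-!
Consequences of the local inequality: expected number of unplaced vertices and of collisions.
-/

namespace Pool.Agent.H37.Hard

open Finset

variable {W U : Type*} [Fintype W] [Fintype U] [DecidableEq W] [DecidableEq U]
variable {G : SimpleGraph W} {T : SimpleGraph U} {L : W → Finset U} {l : ℝ}

lemma avail_eq_filter (f : W → Option U) (w : W) :
    avail G T L f w = (L w).filter (fun u => blk G T f w u = ∅) := by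
  ext u
  rw [mem_avail, Finset.mem_filter, Finset.eq_empty_iff_forall_notMem]
  constructor
  · rintro ⟨h1, h2⟩
    refine ⟨h1, fun y hy => ?_⟩
    obtain ⟨hadj, v, hv, hT⟩ := mem_blk.1 hy
    exact h2 y hadj v hv hT
  · rintro ⟨h1, h2⟩
    refine ⟨h1, fun y hadj v hv hT => ?_⟩
    exact h2 y (mem_blk.2 ⟨hadj, v, hv, hT⟩)

lemma sum_blk_le {B : Finset W} {f : W → Option U} (hf : f ∈ conf G T L B) {D : ℕ}
    (hD : ∀ u, (nb T u).card ≤ D) (w : W) :
    ∑ u ∈ L w, (blk G T f w u).card ≤ (nb G w ∩ B).card * D := by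
  classical
  have h1 : ∀ u, (blk G T f w u).card =
      ∑ y ∈ nb G w ∩ B, (if ∃ u', f y = some u' ∧ T.Adj u' u then 1 else 0) := by
    intro u
    rw [← Finset.card_filter]
    congr 1
    ext y
    rw [mem_blk, Finset.mem_filter, Finset.mem_inter, mem_nb]
    constructor
    · rintro ⟨h1, v, hv, hT⟩
      refine ⟨⟨h1, ?_⟩, v, hv, hT⟩
      by_contra hcon
      rw [(mem_conf.1 hf).1 y hcon] at hv
      simp at hv
    · rintro ⟨⟨h1, _⟩, h2⟩
      exact ⟨h1, h2⟩
  rw [Finset.sum_congr rfl (fun u _ => h1 u), Finset.sum_comm]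
  calc ∑ y ∈ nb G w ∩ B, ∑ u ∈ L w, (if ∃ u', f y = some u' ∧ T.Adj u' u then 1 else 0)
      ≤ ∑ y ∈ nb G w ∩ B, D := by
        apply Finset.sum_le_sum
        intro y _
        rw [← Finset.card_filter]
        cases hy : f y with
        | none => simp
        | some v =>
          refine le_trans (Finset.card_le_card ?_) (hD v)
          intro u hu
          rw [Finset.mem_filter] at hu
          obtain ⟨_, v', hv', hT⟩ := hu
          simp at hv'
          subst hv'
          exact mem_nb.2 hT
    _ = (nb G w ∩ B).card * D := by rw [Finset.sum_const, smul_eq_mul]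

lemma avail_sum (hT : ∀ u a b, T.Adj u a → T.Adj u b → ¬ T.Adj a b) {B : Finset W}
    (hl : 0 < l) {D : ℕ} (hD : ∀ u, (nb T u).card ≤ D) {t : ℝ} (w : W)
    (ht : (1 + l * D) * ((nb G w ∩ B).card * D : ℝ) ≤ t * ((L w).card : ℝ)) :
    Real.exp (-t) * ((L w).card : ℝ) * Z G T L l B ≤
      ∑ f ∈ conf G T L B, wt l f * ((avail G T L f w).card : ℝ) := by
  have h1 : ∑ f ∈ conf G T L B, wt l f * ((avail G T L f w).card : ℝ) =
      ∑ u ∈ L w, ∑ f ∈ conf G T L B, (if blk G T f w u = ∅ then wt l f else 0) := by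
    rw [Finset.sum_comm]
    apply Finset.sum_congr rfl
    intro f _
    rw [avail_eq_filter, Finset.card_filter]
    push_cast
    rw [Finset.mul_sum]
    apply Finset.sum_congr rfl
    intro u _
    split_ifs <;> simp
  rw [h1]
  have h2 : ∑ u ∈ L w, Real.exp (-t) * ∑ i ∈ conf G T L B,
        wt l i * (1 + t - (1 + l * D) * ((blk G T i w u).card : ℝ)) ≤
      ∑ u ∈ L w, ∑ f ∈ conf G T L B, (if blk G T f w u = ∅ then wt l f else 0) := by
    apply Finset.sum_le_sum
    intro u _
    apply local_ineq hT hl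
    apply mul_le_mul_of_nonneg_left _ hl.le
    exact_mod_cast hD u
  refine le_trans ?_ h2
  rw [← Finset.mul_sum, Finset.sum_comm, mul_assoc]
  apply mul_le_mul_of_nonneg_left _ (Real.exp_pos _).le
  unfold Z
  rw [Finset.mul_sum]
  apply Finset.sum_le_sum
  intro f hf
  rw [← Finset.mul_sum, mul_comm]
  apply mul_le_mul_of_nonneg_left _ (wt_nonneg hl.le f)
  rw [Finset.sum_sub_distrib, Finset.sum_const, nsmul_eq_mul, ← Finset.mul_sum]
  have h3 : (∑ u ∈ L w, ((blk G T f w u).card : ℝ)) ≤ ((nb G w ∩ B).card * D : ℝ) := by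
    exact_mod_cast sum_blk_le hf hD w
  have h4 : (0 : ℝ) ≤ 1 + l * D := by positivity
  have h5 := mul_le_mul_of_nonneg_left h3 h4
  linarith

lemma Z_ratio (hT : ∀ u a b, T.Adj u a → T.Adj u b → ¬ T.Adj a b) {B : Finset W}
    (hl : 0 < l) {D : ℕ} (hD : ∀ u, (nb T u).card ≤ D) {t Lo : ℝ} {w : W} (hw : w ∉ B)
    (hLo : Lo ≤ ((L w).card : ℝ))
    (ht : (1 + l * D) * ((nb G w ∩ B).card * D : ℝ) ≤ t * ((L w).card : ℝ)) :
    Z G T L l B * (1 + l * Lo * Real.exp (-t)) ≤ Z G T L l (insert w B) := by
  have h1 := Z_insert (G := G) (T := T) (L := L) hl.le hw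
  have h2 := avail_sum hT hl hD w ht
  refine le_trans ?_ h1
  have hZ := (Z_pos (G := G) (T := T) (L := L) hl B).le
  have h3 : Real.exp (-t) * Lo * Z G T L l B ≤ Real.exp (-t) * ((L w).card : ℝ) * Z G T L l B := by
    apply mul_le_mul_of_nonneg_right _ hZ
    exact mul_le_mul_of_nonneg_left hLo (Real.exp_pos _).le
  have h4 := mul_le_mul_of_nonneg_left (h3.trans h2) hl.le
  nlinarith [h4]

lemma Z_erase {B : Finset W} {w : W} :
    ∑ f ∈ conf G T L B, (if f w = none then wt l f else 0) = Z G T L l (B.erase w) := by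
  unfold Z
  rw [← Finset.sum_filter]
  apply Finset.sum_congr _ (fun _ _ => rfl)
  ext f
  rw [Finset.mem_filter, mem_conf, mem_conf]
  constructor
  · rintro ⟨⟨h1, h2⟩, h3⟩
    refine ⟨fun y hy => ?_, h2⟩
    by_cases hyw : y = w
    · rw [hyw]; exact h3
    · exact h1 y (fun h => hy (Finset.mem_erase.2 ⟨hyw, h⟩))
  · rintro ⟨h1, h2⟩
    refine ⟨⟨fun y hy => h1 y (fun h => hy (Finset.mem_of_mem_erase h)), h2⟩, ?_⟩
    exact h1 w (by simp)

lemma wt_update_none {f : W → Option U} {w : W} {u : U} (hw : f w = some u) :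
    wt l f = l * wt l (Function.update f w none) := by
  have h1 := wt_update_some (l := l) (f := Function.update f w none) (w := w) (by simp) u
  rw [Function.update_idem] at h1
  have h2 : Function.update f w (some u) = f := by
    rw [← hw]; exact Function.update_eq_self w f
  rw [h2] at h1
  exact h1

lemma update_none_mem' {B : Finset W} {w : W} (hw : w ∈ B) {f : W → Option U}
    (hf : f ∈ conf G T L B) : Function.update f w none ∈ conf G T L (B.erase w) := by
  apply update_none_mem
  rw [Finset.insert_erase hw]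
  exact hf

lemma collision_le (hl : 0 < l) {B : Finset W} {w w' : W} (hw : w ∈ B) (hw' : w' ∈ B)
    (hne : w' ≠ w) (u : U) :
    ∑ f ∈ conf G T L B, (if f w = some u ∧ f w' = some u then wt l f else 0) ≤
      l ^ 2 * Z G T L l ((B.erase w).erase w') := by
  rw [← Finset.sum_filter]
  set F := (conf G T L B).filter (fun f => f w = some u ∧ f w' = some u) with hF
  set e : (W → Option U) → (W → Option U) :=
    fun f => Function.update (Function.update f w none) w' none with he
  have h1 : ∀ f ∈ F, wt l f = l ^ 2 * wt l (e f) := by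
    intro f hf
    rw [hF, Finset.mem_filter] at hf
    rw [wt_update_none hf.2.1, wt_update_none (f := Function.update f w none) (w := w') (u := u)
      (by rw [Function.update_of_ne hne]; exact hf.2.2), he]
    ring
  rw [Finset.sum_congr rfl h1, ← Finset.mul_sum]
  apply mul_le_mul_of_nonneg_left _ (by positivity)
  have hinj : Set.InjOn e F := by
    intro f hf g hg hfg
    rw [Finset.mem_coe, hF, Finset.mem_filter] at hf hg
    funext y
    have := congrFun hfg y
    simp only [he] at this
    by_cases h1 : y = w'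
    · subst h1; rw [hf.2.2, hg.2.2]
    · rw [Function.update_of_ne h1, Function.update_of_ne h1] at this
      by_cases h2 : y = w
      · subst h2; rw [hf.2.1, hg.2.1]
      · rw [Function.update_of_ne h2, Function.update_of_ne h2] at this
        exact this
  rw [← Finset.sum_image (f := fun g => wt l g) hinj]
  unfold Z
  apply Finset.sum_le_sum_of_subset_of_nonneg
  · intro g hg
    rw [Finset.mem_image] at hg
    obtain ⟨f, hf, rfl⟩ := hg
    rw [hF, Finset.mem_filter] at hf
    apply update_none_mem' (Finset.mem_erase.2 ⟨hne, hw'⟩)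
    exact update_none_mem' hw hf.1
  · intro i _ _
    exact wt_nonneg hl.le i

end Pool.Agent.H37.Hard
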