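import Mathlib

set_option autoImplicit false
set_option linter.unusedSectionVars false

/-!
Hard-core (partial placement) measure with lists: a random partial placement of the vertices of a
pattern graph `G` into the vertices of a triangle-free host `T`, conflict-free in the sense that no
pattern edge is mapped onto a host edge.
-/

namespace Pool.Agent.H37.Hard

open Finset

variable {W U : Type*} [Fintype W] [Fintype U] [DecidableEq W] [DecidableEq U]

open scoped Classical in
/-- neighbourhood as a finset -/
noncomputable def nb {X : Type*} [Fintype X] (H : SimpleGraph X) (x : X) : Finset X :=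
  Finset.univ.filter (fun y => H.Adj x y)

lemma mem_nb {X : Type*} [Fintype X] {H : SimpleGraph X} {x y : X} : y ∈ nb H x ↔ H.Adj x y := by
  classical
  simp [nb]

open scoped Classical in
/-- admissible partial placements supported in `B` -/
noncomputable def conf (G : SimpleGraph W) (T : SimpleGraph U) (L : W → Finset U)
    (B : Finset W) : Finset (W → Option U) :=
  Finset.univ.filter (fun f =>
    (∀ w, w ∉ B → f w = none) ∧
    (∀ w, ∀ u, f w = some u → u ∈ L w) ∧
    (∀ w w', G.Adj w w' → ∀ u u', f w = some u → f w' = some u' → ¬ T.Adj u u'))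

/-- weight of a partial placement: `l` to the number of placed vertices -/
noncomputable def wt (l : ℝ) (f : W → Option U) : ℝ := ∏ w, (if f w = none then (1 : ℝ) else l)

/-- partition function -/
noncomputable def Z (G : SimpleGraph W) (T : SimpleGraph U) (L : W → Finset U) (l : ℝ)
    (B : Finset W) : ℝ := ∑ f ∈ conf G T L B, wt l f

open scoped Classical in
/-- available positions for `w` -/
noncomputable def avail (G : SimpleGraph W) (T : SimpleGraph U) (L : W → Finset U)
    (f : W → Option U) (w : W) : Finset U :=
  (L w).filter (fun u => ∀ y, G.Adj w y → ∀ u', f y = some u' → ¬ T.Adj u' u)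

open scoped Classical in
/-- the neighbours of `w` blocking the position `u` -/
noncomputable def blk (G : SimpleGraph W) (T : SimpleGraph U)
    (f : W → Option U) (w : W) (u : U) : Finset W :=
  Finset.univ.filter (fun y => G.Adj w y ∧ ∃ u', f y = some u' ∧ T.Adj u' u)

/-- remove the placement of the blocking neighbours -/
noncomputable def un (G : SimpleGraph W) (T : SimpleGraph U)
    (f : W → Option U) (w : W) (u : U) : W → Option U :=
  fun y => if y ∈ blk G T f w u then none else f y

variable {G : SimpleGraph W} {T : SimpleGraph U} {L : W → Finset U} {l : ℝ}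

lemma mem_conf {B : Finset W} {f : W → Option U} : f ∈ conf G T L B ↔
    (∀ w, w ∉ B → f w = none) ∧
    (∀ w, ∀ u, f w = some u → u ∈ L w) ∧
    (∀ w w', G.Adj w w' → ∀ u u', f w = some u → f w' = some u' → ¬ T.Adj u u') := by
  classical
  simp [conf]

lemma mem_avail {f : W → Option U} {w : W} {u : U} : u ∈ avail G T L f w ↔
    u ∈ L w ∧ ∀ y, G.Adj w y → ∀ u', f y = some u' → ¬ T.Adj u' u := by
  classical
  simp [avail]

lemma mem_blk {f : W → Option U} {w y : W} {u : U} : y ∈ blk G T f w u ↔
    G.Adj w y ∧ ∃ u', f y = some u' ∧ T.Adj u' u := by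
  classical
  simp [blk]

lemma wt_nonneg (hl : 0 ≤ l) (f : W → Option U) : 0 ≤ wt l f := by
  unfold wt
  apply Finset.prod_nonneg
  intro w _
  split_ifs <;> positivity

lemma wt_pos (hl : 0 < l) (f : W → Option U) : 0 < wt l f := by
  unfold wt
  apply Finset.prod_pos
  intro w _
  split_ifs <;> positivity

lemma wt_update_some {f : W → Option U} {w : W} (hw : f w = none) (u : U) :
    wt l (Function.update f w (some u)) = l * wt l f := by
  unfold wt
  rw [← Finset.mul_prod_erase univ _ (mem_univ w), ← Finset.mul_prod_erase univ
    (fun w' => if f w' = none then (1 : ℝ) else l) (mem_univ w)]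
  simp only [Function.update_self, hw, if_true, one_mul]
  have : (if (some u : Option U) = none then (1 : ℝ) else l) = l := by simp
  rw [this]
  congr 1
  apply Finset.prod_congr rfl
  intro y hy
  rw [Function.update_of_ne (Finset.ne_of_mem_erase hy)]

lemma conf_mono {B B' : Finset W} (h : B ⊆ B') : conf G T L B ⊆ conf G T L B' := by
  intro f hf
  rw [mem_conf] at hf ⊢
  exact ⟨fun w hw => hf.1 w (fun h' => hw (h h')), hf.2⟩

lemma Z_pos (hl : 0 < l) (B : Finset W) : 0 < Z G T L l B := by
  unfold Z
  apply Finset.sum_pos (fun f _ => wt_pos hl f)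
  refine ⟨fun _ => none, ?_⟩
  rw [mem_conf]
  simp

lemma update_none_mem {B : Finset W} {w : W} {f : W → Option U}
    (hf : f ∈ conf G T L (insert w B)) : Function.update f w none ∈ conf G T L B := by
  rw [mem_conf] at hf ⊢
  obtain ⟨h1, h2, h3⟩ := hf
  refine ⟨?_, ?_, ?_⟩
  · intro y hy
    by_cases hyw : y = w
    · subst hyw; simp
    · rw [Function.update_of_ne hyw]
      exact h1 y (by simp [hyw, hy])
  · intro y u hyu
    by_cases hyw : y = w
    · subst hyw; simp at hyu
    · rw [Function.update_of_ne hyw] at hyu
      exact h2 y u hyu
  · intro y y' hadj u u' hyu hyu'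
    by_cases hyw : y = w
    · subst hyw; simp at hyu
    · by_cases hyw' : y' = w
      · subst hyw'; simp at hyu'
      · rw [Function.update_of_ne hyw] at hyu
        rw [Function.update_of_ne hyw'] at hyu'
        exact h3 y y' hadj u u' hyu hyu'

lemma update_some_mem {B : Finset W} {w : W} {f : W → Option U}
    (hf : f ∈ conf G T L B) {u : U} (hu : u ∈ avail G T L f w) :
    Function.update f w (some u) ∈ conf G T L (insert w B) := by
  rw [mem_conf] at hf ⊢
  rw [mem_avail] at hu
  obtain ⟨h1, h2, h3⟩ := hf
  refine ⟨?_, ?_, ?_⟩
  · intro y hy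
    simp only [Finset.mem_insert, not_or] at hy
    rw [Function.update_of_ne hy.1]
    exact h1 y hy.2
  · intro y v hyv
    by_cases hyw : y = w
    · subst hyw
      simp at hyv
      rw [← hyv]; exact hu.1
    · rw [Function.update_of_ne hyw] at hyv
      exact h2 y v hyv
  · intro y y' hadj v v' hyv hyv'
    by_cases hyw : y = w
    · subst hyw
      have hne : y' ≠ y := hadj.ne'
      rw [Function.update_of_ne hne] at hyv'
      simp at hyv
      subst hyv
      intro hT
      exact hu.2 y' hadj v' hyv' hT.symm
    · by_cases hyw' : y' = w
      · subst hyw'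
        rw [Function.update_of_ne hyw] at hyv
        simp at hyv'
        subst hyv'
        exact hu.2 y hadj.symm v hyv
      · rw [Function.update_of_ne hyw] at hyv
        rw [Function.update_of_ne hyw'] at hyv'
        exact h3 y y' hadj v v' hyv hyv'

/-- inserting a vertex -/
lemma Z_insert (hl : 0 ≤ l) {B : Finset W} {w : W} (hw : w ∉ B) :
    Z G T L l B + l * ∑ f ∈ conf G T L B, wt l f * ((avail G T L f w).card : ℝ)
      ≤ Z G T L l (insert w B) := by
  unfold Z
  rw [← Finset.sum_fiberwise_of_maps_to (s := conf G T L (insert w B)) (t := conf G T L B)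
    (g := fun f => Function.update f w none) (fun f hf => update_none_mem hf), Finset.mul_sum,
    ← Finset.sum_add_distrib]
  apply Finset.sum_le_sum
  intro f hf
  have hfw : f w = none := (mem_conf.1 hf).1 w hw
  have hsub : (Finset.insertNone (avail G T L f w)).image (fun a => Function.update f w a) ⊆
      (conf G T L (insert w B)).filter (fun i => Function.update i w none = f) := by
    intro i hi
    rw [Finset.mem_image] at hi
    obtain ⟨a, ha, rfl⟩ := hi
    rw [Finset.mem_filter]
    constructor
    · cases a with
      | none =>
        have : Function.update f w none = f := by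
          rw [← hfw]; exact Function.update_eq_self w f
        rw [this]
        exact conf_mono (Finset.subset_insert w B) hf
      | some u =>
        exact update_some_mem hf (by simpa using ha)
    · rw [Function.update_idem]
      rw [← hfw]; exact Function.update_eq_self w f
  refine le_trans ?_ (Finset.sum_le_sum_of_subset_of_nonneg hsub
    (fun i _ _ => wt_nonneg hl i))
  rw [Finset.sum_image]
  · rw [Finset.sum_insertNone]
    have h1 : Function.update f w none = f := by
      rw [← hfw]; exact Function.update_eq_self w f
    rw [h1]
    have h2 : ∑ x ∈ avail G T L f w, wt l (Function.update f w (some x)) =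
        ∑ x ∈ avail G T L f w, l * wt l f :=
      Finset.sum_congr rfl (fun x _ => wt_update_some hfw x)
    rw [h2, Finset.sum_const, nsmul_eq_mul]
    linarith [mul_comm l (wt l f * ((avail G T L f w).card : ℝ)),
      mul_comm ((avail G T L f w).card : ℝ) (l * wt l f), mul_assoc l (wt l f) ((avail G T L f w).card : ℝ)]
  · intro a _ b _ hab
    have := congrFun hab w
    simpa using this

end Pool.Agent.H37.Hard
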