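import Pool.Agent.H37.HardCore2

set_option autoImplicit false
set_option linter.unusedSectionVars false

/-!
Local inequality for the hard-core measure, continued.
-/

namespace Pool.Agent.H37.Hard

open Finset

variable {W U : Type*} [Fintype W] [Fintype U] [DecidableEq W] [DecidableEq U]
variable {G : SimpleGraph W} {T : SimpleGraph U} {L : W → Finset U} {l : ℝ}

/-- total weight of a factor -/
noncomputable def fw (l : ℝ) (s : Finset (Option U)) : ℝ := ∑ a ∈ s, (if a = none then (1 : ℝ) else l)

lemma fw_singleton (a : Option U) : fw l {a} = if a = none then (1 : ℝ) else l := by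
  unfold fw; simp

lemma fw_insertNone (s : Finset U) : fw l (Finset.insertNone s) = 1 + l * s.card := by
  unfold fw
  rw [Finset.sum_insertNone]
  simp [mul_comm]

lemma sum_piFinset_wt (s : W → Finset (Option U)) :
    ∑ f ∈ Fintype.piFinset s, wt l f = ∏ w, fw l (s w) := by
  unfold wt fw
  rw [Finset.prod_univ_sum]

lemma sum_piFinset_wt_placed (s : W → Finset (Option U)) (y : W) :
    ∑ f ∈ Fintype.piFinset s, (if f y = none then 0 else wt l f) =
      (∑ a ∈ s y, (if a = none then 0 else l)) * ∏ w ∈ univ.erase y, fw l (s w) := by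
  have h1 : ∀ f : W → Option U, (if f y = none then 0 else wt l f) =
      ∏ w, (if w = y then (if f w = none then (0 : ℝ) else l) else
        (if f w = none then (1 : ℝ) else l)) := by
    intro f
    rw [← Finset.mul_prod_erase univ _ (mem_univ y)]
    unfold wt
    rw [← Finset.mul_prod_erase univ (fun w => if f w = none then (1 : ℝ) else l) (mem_univ y)]
    have h2 : ∏ x ∈ univ.erase y, (if x = y then (if f x = none then (0 : ℝ) else l) else
        (if f x = none then (1 : ℝ) else l)) = ∏ x ∈ univ.erase y,
        (if f x = none then (1 : ℝ) else l) := by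
      apply Finset.prod_congr rfl
      intro x hx
      rw [if_neg (Finset.ne_of_mem_erase hx)]
    rw [h2]
    simp only [if_true]
    split_ifs with h3
    · simp
    · rfl
  rw [Finset.sum_congr rfl (fun f _ => h1 f)]
  have h3 := Finset.prod_univ_sum s (fun w a => (if w = y then (if a = none then (0 : ℝ) else l) else
        (if a = none then (1 : ℝ) else l)))
  rw [← h3]
  rw [← Finset.mul_prod_erase univ _ (mem_univ y)]
  simp only [if_true]
  congr 1
  apply Finset.prod_congr rfl
  intro x hx
  unfold fw
  apply Finset.sum_congr rfl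
  intro a _
  rw [if_neg (Finset.ne_of_mem_erase hx)]

lemma fw_nonneg (hl : 0 ≤ l) (s : Finset (Option U)) : 0 ≤ fw l s := by
  unfold fw
  apply Finset.sum_nonneg
  intro a _
  split_ifs <;> positivity

/-- the local inequality on one fibre -/
lemma fiber_ineq (hT : ∀ u a b, T.Adj u a → T.Adj u b → ¬ T.Adj a b) {B : Finset W}
    (hl : 0 < l) {sg : ℝ} {t : ℝ} {u : U}
    (hdeg : l * ((nb T u).card : ℝ) ≤ sg)
    {f : W → Option U} (hf : f ∈ conf G T L B) (w : W) :
    Real.exp (-t) * ∑ i ∈ (conf G T L B).filter (fun i => un G T i w u = un G T f w u),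
        wt l i * (1 + t - (1 + sg) * ((blk G T i w u).card : ℝ)) ≤
      ∑ i ∈ (conf G T L B).filter (fun i => un G T i w u = un G T f w u),
        (if blk G T i w u = ∅ then wt l i else 0) := by
  set g := un G T f w u with hg
  have hgc : g ∈ conf G T L B := un_mem hf w u
  have hgb : blk G T g w u = ∅ := blk_un f w u
  have hgg : un G T g w u = g := un_eq_self hgb
  set F := (conf G T L B).filter (fun i => un G T i w u = g) with hF
  have hFpi : F = Fintype.piFinset (fac G T L B g w u) := fiber_eq hT hf w u
  have hgF : g ∈ F := by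
    rw [hF, Finset.mem_filter]; exact ⟨hgc, hgg⟩
  set D := free G B g w with hD
  -- the right-hand side is at least the weight of `g`
  have hrhs : wt l g ≤ ∑ i ∈ F, (if blk G T i w u = ∅ then wt l i else 0) := by
    have := Finset.single_le_sum (f := fun i => (if blk G T i w u = ∅ then wt l i else 0))
      (s := F) (fun i _ => by
        split_ifs
        · exact wt_nonneg hl.le i
        · exact le_rfl) hgF
    simpa [hgb] using this
  -- total weight
  set S1 := ∑ i ∈ F, wt l i with hS1
  have hS1nn : 0 ≤ S1 := Finset.sum_nonneg (fun i _ => wt_nonneg hl.le i)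
  set sy : W → ℝ := fun y => l * ((cand G T L g u y).card : ℝ) with hsy
  have hsy0 : ∀ y, 0 ≤ sy y := fun y => by simp only [hsy]; positivity
  have hsysg : ∀ y, sy y ≤ sg := by
    intro y
    refine le_trans ?_ hdeg
    simp only [hsy]
    apply mul_le_mul_of_nonneg_left _ hl.le
    have hsub : cand G T L g u y ⊆ nb T u := fun v hv => mem_nb.2 (mem_cand.1 hv).2.1
    exact_mod_cast Finset.card_le_card hsub
  have hfac : ∀ y, fw l (fac G T L B g w u y) =
      if y ∈ D then 1 + sy y else (if g y = none then 1 else l) := by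
    intro y
    unfold fac
    split_ifs with h1 h2
    · rw [fw_insertNone]
    · rw [fw_singleton, if_pos h2]
    · rw [fw_singleton, if_neg h2]
  have hwtg : wt l g = ∏ y, (if y ∈ D then (1 : ℝ) else (if g y = none then 1 else l)) := by
    unfold wt
    apply Finset.prod_congr rfl
    intro y _
    split_ifs with h1 h2 h3
    · rfl
    · rfl
    · exact absurd (mem_free.1 h3).2.2 h1
    · rfl
  set s := ∑ y ∈ D, sy y with hs
  have hS1le : S1 ≤ Real.exp s * wt l g := by
    rw [hS1, hFpi, sum_piFinset_wt, hwtg, hs, Real.exp_sum]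
    have : ∏ y ∈ D, Real.exp (sy y) = ∏ y, (if y ∈ D then Real.exp (sy y) else 1) := by
      rw [Finset.prod_ite_mem, Finset.univ_inter]
    rw [this, ← Finset.prod_mul_distrib]
    apply Finset.prod_le_prod
    · intro y _; exact fw_nonneg hl.le _
    · intro y _
      rw [hfac y]
      split_ifs with h1
      · rw [mul_one]
        have := Real.add_one_le_exp (sy y)
        linarith
      · simp
      · simp
  -- the blocked count
  set Sb := ∑ i ∈ F, wt l i * ((blk G T i w u).card : ℝ) with hSb
  have hblk : ∀ i ∈ F, blk G T i w u = D.filter (fun y => i y ≠ none) := by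
    intro i hi
    rw [hF, Finset.mem_filter] at hi
    ext y
    rw [Finset.mem_filter, hD, mem_free]
    constructor
    · intro hy
      obtain ⟨hadj, v, hv, hTv⟩ := mem_blk.1 hy
      refine ⟨⟨?_, hadj, ?_⟩, ?_⟩
      · by_contra hcon
        rw [(mem_conf.1 hi.1).1 y hcon] at hv
        simp at hv
      · rw [← hi.2, un_apply, if_pos hy]
      · rw [hv]; simp
    · rintro ⟨⟨_, hadj, hgy⟩, hiy⟩
      by_contra hcon
      rw [← hi.2, un_apply, if_neg hcon] at hgy
      exact hiy hgy
  have hSb2 : Sb = ∑ y ∈ D, ∑ i ∈ F, (if i y = none then 0 else wt l i) := by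
    rw [hSb, Finset.sum_comm]
    apply Finset.sum_congr rfl
    intro i hi
    rw [hblk i hi, Finset.card_filter]
    push_cast
    rw [Finset.mul_sum]
    apply Finset.sum_congr rfl
    intro y _
    by_cases h : i y = none <;> simp [h]
  have hSbge : s * S1 ≤ (1 + sg) * Sb := by
    rw [hSb2, hs, Finset.sum_mul, Finset.mul_sum]
    apply Finset.sum_le_sum
    intro y hy
    rw [hS1, hFpi, sum_piFinset_wt, sum_piFinset_wt_placed, ← Finset.mul_prod_erase univ _ (mem_univ y)]
    have h1 : fw l (fac G T L B g w u y) = 1 + sy y := by rw [hfac y, if_pos hy]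
    have h2 : (∑ a ∈ fac G T L B g w u y, (if a = none then (0 : ℝ) else l)) = sy y := by
      unfold fac
      rw [if_pos hy, Finset.sum_insertNone]
      simp [hsy, mul_comm]
    rw [h1, h2]
    have h3 : 0 ≤ ∏ w_1 ∈ univ.erase y, fw l (fac G T L B g w u w_1) :=
      Finset.prod_nonneg (fun z _ => fw_nonneg hl.le _)
    have h4 := hsysg y
    have h5 := hsy0 y
    have h6 : sy y * (1 + sy y) ≤ (1 + sg) * sy y := by nlinarith
    calc sy y * ((1 + sy y) * ∏ w_1 ∈ univ.erase y, fw l (fac G T L B g w u w_1))
        = (sy y * (1 + sy y)) * ∏ w_1 ∈ univ.erase y, fw l (fac G T L B g w u w_1) := by ring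
      _ ≤ ((1 + sg) * sy y) * ∏ w_1 ∈ univ.erase y, fw l (fac G T L B g w u w_1) :=
          mul_le_mul_of_nonneg_right h6 h3
      _ = (1 + sg) * (sy y * ∏ z ∈ univ.erase y, fw l (fac G T L B g w u z)) := by ring
  -- conclusion
  have hlhs : ∑ i ∈ F, wt l i * (1 + t - (1 + sg) * ((blk G T i w u).card : ℝ)) =
      (1 + t) * S1 - (1 + sg) * Sb := by
    rw [hS1, hSb, Finset.mul_sum, Finset.mul_sum, ← Finset.sum_sub_distrib]
    apply Finset.sum_congr rfl
    intro i _
    ring
  rw [hlhs]
  refine le_trans ?_ hrhs
  have hle : (1 + t) * S1 - (1 + sg) * Sb ≤ (1 + t - s) * S1 := by nlinarith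
  have hwtnn := wt_nonneg hl.le g
  have h7 : (1 + t - s) * S1 ≤ Real.exp t * wt l g := by
    by_cases hc : 0 ≤ 1 + t - s
    · calc (1 + t - s) * S1 ≤ (1 + t - s) * (Real.exp s * wt l g) :=
            mul_le_mul_of_nonneg_left hS1le hc
        _ ≤ Real.exp (t - s) * (Real.exp s * wt l g) := by
            apply mul_le_mul_of_nonneg_right _ (by positivity)
            have := Real.add_one_le_exp (t - s)
            linarith
        _ = Real.exp t * wt l g := by
            rw [← mul_assoc, ← Real.exp_add]; congr 2; ring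
    · push Not at hc
      have : (1 + t - s) * S1 ≤ 0 := by nlinarith
      have h8 : 0 ≤ Real.exp t * wt l g := by positivity
      linarith
  calc Real.exp (-t) * ((1 + t) * S1 - (1 + sg) * Sb) ≤ Real.exp (-t) * (Real.exp t * wt l g) :=
        mul_le_mul_of_nonneg_left (hle.trans h7) (Real.exp_pos _).le
    _ = wt l g := by
        rw [← mul_assoc, ← Real.exp_add]; simp

/-- the local inequality -/
lemma local_ineq (hT : ∀ u a b, T.Adj u a → T.Adj u b → ¬ T.Adj a b) {B : Finset W}
    (hl : 0 < l) {sg : ℝ} {t : ℝ} {u : U}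
    (hdeg : l * ((nb T u).card : ℝ) ≤ sg) (w : W) :
    Real.exp (-t) * ∑ i ∈ conf G T L B,
        wt l i * (1 + t - (1 + sg) * ((blk G T i w u).card : ℝ)) ≤
      ∑ i ∈ conf G T L B, (if blk G T i w u = ∅ then wt l i else 0) := by
  rw [← Finset.sum_fiberwise_of_maps_to (s := conf G T L B)
    (t := (conf G T L B).image (fun i => un G T i w u))
    (g := fun i => un G T i w u) (fun i hi => Finset.mem_image_of_mem _ hi),
    ← Finset.sum_fiberwise_of_maps_to (s := conf G T L B)
    (t := (conf G T L B).image (fun i => un G T i w u))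
    (g := fun i => un G T i w u) (fun i hi => Finset.mem_image_of_mem _ hi), Finset.mul_sum]
  apply Finset.sum_le_sum
  intro g hg
  rw [Finset.mem_image] at hg
  obtain ⟨f, hf, rfl⟩ := hg
  exact fiber_ineq hT hl hdeg hf w

end Pool.Agent.H37.Hard
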