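import Pool.Agent.H37.HardCore4

set_option autoImplicit false
set_option linter.unusedSectionVars false

/-!
Existence of a good partial placement.
-/

namespace Pool.Agent.H37.Hard

open Finset

variable {W U : Type*} [Fintype W] [Fintype U] [DecidableEq W] [DecidableEq U]

theorem exists_good [Nonempty U] {G : SimpleGraph W} {T : SimpleGraph U} {L : W → Finset U} {l : ℝ}
    (hT : ∀ u a b, T.Adj u a → T.Adj u b → ¬ T.Adj a b) (B : Finset W)
    (hl : 0 < l) {D : ℕ} (hD : ∀ u, (nb T u).card ≤ D) {t Lo : ℝ} (hLo0 : 0 < Lo)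
    (hLo : ∀ w ∈ B, Lo ≤ ((L w).card : ℝ))
    (ht : ∀ w ∈ B, (1 + l * D) * ((nb G w ∩ B).card * D : ℝ) ≤ t * ((L w).card : ℝ)) :
    ∃ P ⊆ B, ∃ g : W → U, Set.InjOn g P ∧ (∀ w ∈ P, g w ∈ L w) ∧
      (∀ w ∈ P, ∀ w' ∈ P, G.Adj w w' → ¬ T.Adj (g w) (g w')) ∧
      (((B \ P).card : ℕ) : ℝ) ≤ (B.card : ℝ) / (1 + l * Lo * Real.exp (-t)) +
        (B.card : ℝ) ^ 2 * (Fintype.card U : ℝ) / (Lo * Real.exp (-t)) ^ 2 := by
  classical
  -- the ratio
  set r : ℝ := 1 + l * Lo * Real.exp (-t) with hr
  have he : 0 < Real.exp (-t) := Real.exp_pos _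
  have hx : 0 < l * Lo * Real.exp (-t) := by positivity
  have hr0 : 0 < r := by rw [hr]; linarith
  have hratio : ∀ w ∈ B, ∀ B' ⊆ B, w ∉ B' → Z G T L l B' * r ≤ Z G T L l (insert w B') := by
    intro w hw B' hB' hwB'
    apply Z_ratio hT hl hD hwB' (hLo w hw)
    refine le_trans ?_ (ht w hw)
    apply mul_le_mul_of_nonneg_left _ (by positivity)
    apply mul_le_mul_of_nonneg_right _ (by positivity)
    exact_mod_cast Finset.card_le_card (Finset.inter_subset_inter_left hB')
  have hratio1 : ∀ w ∈ B, Z G T L l (B.erase w) * r ≤ Z G T L l B := by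
    intro w hw
    have := hratio w hw (B.erase w) (Finset.erase_subset _ _) (Finset.notMem_erase _ _)
    rwa [Finset.insert_erase hw] at this
  have hratio2 : ∀ w ∈ B, ∀ w' ∈ B, w' ≠ w →
      Z G T L l ((B.erase w).erase w') * r ^ 2 ≤ Z G T L l B := by
    intro w hw w' hw' hne
    have h1 := hratio w' hw' ((B.erase w).erase w')
      ((Finset.erase_subset _ _).trans (Finset.erase_subset _ _)) (Finset.notMem_erase _ _)
    rw [Finset.insert_erase (Finset.mem_erase.2 ⟨hne, hw'⟩)] at h1
    have h2 := mul_le_mul_of_nonneg_right h1 hr0.le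
    calc Z G T L l ((B.erase w).erase w') * r ^ 2
        = Z G T L l ((B.erase w).erase w') * r * r := by ring
      _ ≤ Z G T L l (B.erase w) * r := h2
      _ ≤ Z G T L l B := hratio1 w hw
  have hZ := Z_pos (G := G) (T := T) (L := L) hl B
  -- the bad count
  set X1 : (W → Option U) → ℝ := fun f => ∑ w ∈ B, (if f w = none then (1 : ℝ) else 0) with hX1
  set X2 : (W → Option U) → ℝ := fun f => ∑ w ∈ B, ∑ w' ∈ B.erase w, ∑ u,
    (if f w = some u ∧ f w' = some u then (1 : ℝ) else 0) with hX2
  have hE1 : ∑ f ∈ conf G T L B, wt l f * X1 f ≤ (B.card : ℝ) / r * Z G T L l B := by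
    have h1 : ∑ f ∈ conf G T L B, wt l f * X1 f = ∑ w ∈ B, Z G T L l (B.erase w) := by
      simp only [hX1, Finset.mul_sum]
      rw [Finset.sum_comm]
      apply Finset.sum_congr rfl
      intro w _
      rw [← Z_erase]
      apply Finset.sum_congr rfl
      intro f _
      split_ifs <;> simp
    rw [h1]
    calc ∑ w ∈ B, Z G T L l (B.erase w) ≤ ∑ w ∈ B, Z G T L l B / r := by
          apply Finset.sum_le_sum
          intro w hw
          rw [le_div_iff₀ hr0]
          exact hratio1 w hw
      _ = (B.card : ℝ) / r * Z G T L l B := by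
          rw [Finset.sum_const, nsmul_eq_mul]; ring
  have hE2 : ∑ f ∈ conf G T L B, wt l f * X2 f ≤
      (B.card : ℝ) ^ 2 * (Fintype.card U : ℝ) / (Lo * Real.exp (-t)) ^ 2 * Z G T L l B := by
    have h1 : ∑ f ∈ conf G T L B, wt l f * X2 f = ∑ w ∈ B, ∑ w' ∈ B.erase w, ∑ u,
        ∑ f ∈ conf G T L B, (if f w = some u ∧ f w' = some u then wt l f else 0) := by
      simp only [hX2, Finset.mul_sum]
      rw [Finset.sum_comm]
      apply Finset.sum_congr rfl
      intro w _
      rw [Finset.sum_comm]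
      apply Finset.sum_congr rfl
      intro w' _
      rw [Finset.sum_comm]
      apply Finset.sum_congr rfl
      intro u _
      apply Finset.sum_congr rfl
      intro f _
      split_ifs <;> simp
    rw [h1]
    have h2 : ∀ w ∈ B, ∀ w' ∈ B.erase w, ∀ u : U,
        ∑ f ∈ conf G T L B, (if f w = some u ∧ f w' = some u then wt l f else 0) ≤
          Z G T L l B / (Lo * Real.exp (-t)) ^ 2 := by
      intro w hw w' hw' u
      rw [Finset.mem_erase] at hw'
      refine (collision_le hl hw hw'.2 hw'.1 u).trans ?_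
      rw [le_div_iff₀ (by positivity)]
      have h3 := hratio2 w hw w' hw'.2 hw'.1
      have h4 : 0 ≤ Z G T L l ((B.erase w).erase w') := (Z_pos hl _).le
      have h5 : (l * Lo * Real.exp (-t)) ^ 2 ≤ r ^ 2 := by
        apply pow_le_pow_left₀ hx.le
        rw [hr]; linarith
      calc l ^ 2 * Z G T L l ((B.erase w).erase w') * (Lo * Real.exp (-t)) ^ 2
          = Z G T L l ((B.erase w).erase w') * (l * Lo * Real.exp (-t)) ^ 2 := by ring
        _ ≤ Z G T L l ((B.erase w).erase w') * r ^ 2 := mul_le_mul_of_nonneg_left h5 h4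
        _ ≤ Z G T L l B := h3
    have hq : 0 ≤ Z G T L l B / (Lo * Real.exp (-t)) ^ 2 := by positivity
    calc ∑ w ∈ B, ∑ w' ∈ B.erase w, ∑ u,
        ∑ f ∈ conf G T L B, (if f w = some u ∧ f w' = some u then wt l f else 0)
        ≤ ∑ w ∈ B, ∑ w' ∈ B.erase w, ∑ u : U, Z G T L l B / (Lo * Real.exp (-t)) ^ 2 := by
          apply Finset.sum_le_sum; intro w hw
          apply Finset.sum_le_sum; intro w' hw'
          apply Finset.sum_le_sum; intro u _
          exact h2 w hw w' hw' u
      _ ≤ ∑ w ∈ B, ∑ w' ∈ B, ∑ u : U, Z G T L l B / (Lo * Real.exp (-t)) ^ 2 := by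
          apply Finset.sum_le_sum; intro w hw
          apply Finset.sum_le_sum_of_subset_of_nonneg (Finset.erase_subset _ _)
          intro i _ _
          exact Finset.sum_nonneg (fun _ _ => hq)
      _ = (B.card : ℝ) ^ 2 * (Fintype.card U : ℝ) / (Lo * Real.exp (-t)) ^ 2 * Z G T L l B := by
          simp only [Finset.sum_const, nsmul_eq_mul, Finset.card_univ]
          ring
  set K : ℝ := (B.card : ℝ) / r +
    (B.card : ℝ) ^ 2 * (Fintype.card U : ℝ) / (Lo * Real.exp (-t)) ^ 2 with hK
  have hsum : ∑ f ∈ conf G T L B, wt l f * (X1 f + X2 f) ≤ ∑ f ∈ conf G T L B, wt l f * K := by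
    have h1 : ∑ f ∈ conf G T L B, wt l f * K = K * Z G T L l B := by
      rw [← Finset.sum_mul, mul_comm]; rfl
    rw [h1, hK, add_mul]
    have h2 : ∑ f ∈ conf G T L B, wt l f * (X1 f + X2 f) =
        ∑ f ∈ conf G T L B, wt l f * X1 f + ∑ f ∈ conf G T L B, wt l f * X2 f := by
      rw [← Finset.sum_add_distrib]
      exact Finset.sum_congr rfl (fun f _ => by ring)
    rw [h2]
    exact add_le_add hE1 hE2
  have hne : (conf G T L B).Nonempty := by
    refine ⟨fun _ => none, ?_⟩
    rw [mem_conf]; simp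
  obtain ⟨f, hf, hfX⟩ := Finset.exists_le_of_sum_le hne hsum
  have hfX' : X1 f + X2 f ≤ K := le_of_mul_le_mul_left hfX (wt_pos hl f)
  have hfc := mem_conf.1 hf
  set P : Finset W := B.filter (fun w => f w ≠ none ∧ ∀ w' ∈ B, w' ≠ w → f w' ≠ f w) with hP
  obtain ⟨u0⟩ := (inferInstance : Nonempty U)
  have hPv : ∀ w ∈ P, f w = some ((f w).getD u0) := by
    intro w hw
    rw [hP, Finset.mem_filter] at hw
    cases h : f w with
    | none => exact absurd h hw.2.1
    | some v => simp
  refine ⟨P, Finset.filter_subset _ _, fun w => (f w).getD u0, ?_, ?_, ?_, ?_⟩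
  · intro w hw w' hw' heq
    rw [Finset.mem_coe] at hw hw'
    by_contra hcon
    have h1 := hPv w hw
    have h2 := hPv w' hw'
    have h3 : f w = f w' := by
      rw [h1, h2]
      exact congrArg some heq
    rw [hP, Finset.mem_filter] at hw hw'
    exact hw'.2.2 w hw.1 hcon h3
  · intro w hw
    exact hfc.2.1 w _ (hPv w hw)
  · intro w hw w' hw' hadj
    exact hfc.2.2 w w' hadj _ _ (hPv w hw) (hPv w' hw')
  · refine le_trans ?_ hfX'
    have h1 : B \ P ⊆ B.filter (fun w => f w = none) ∪
        B.filter (fun w => f w ≠ none ∧ ∃ w' ∈ B, w' ≠ w ∧ f w' = f w) := by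
      intro w hw
      rw [Finset.mem_sdiff, hP, Finset.mem_filter] at hw
      rw [Finset.mem_union, Finset.mem_filter, Finset.mem_filter]
      by_cases hn : f w = none
      · left; exact ⟨hw.1, hn⟩
      · right
        refine ⟨hw.1, hn, ?_⟩
        by_contra hcon
        push Not at hcon
        exact hw.2 ⟨hw.1, hn, hcon⟩
    have h2 : (((B \ P).card : ℕ) : ℝ) ≤ ((B.filter (fun w => f w = none)).card : ℝ) +
        ((B.filter (fun w => f w ≠ none ∧ ∃ w' ∈ B, w' ≠ w ∧ f w' = f w)).card : ℝ) := by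
      exact_mod_cast (Finset.card_le_card h1).trans (Finset.card_union_le _ _)
    refine h2.trans (add_le_add ?_ ?_)
    · rw [Finset.card_filter]
      push_cast
      exact le_rfl
    · rw [Finset.card_filter]
      push_cast
      simp only [hX2]
      apply Finset.sum_le_sum
      intro w hw
      have hnn : ∀ w' ∈ B.erase w, 0 ≤ ∑ u : U, (if f w = some u ∧ f w' = some u then (1 : ℝ) else 0) := by
        intro w' _
        apply Finset.sum_nonneg
        intro u _
        split_ifs <;> norm_num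
      split_ifs with hc
      · obtain ⟨hn, w', hw', hne', heq⟩ := hc
        obtain ⟨v, hv⟩ := Option.ne_none_iff_exists'.1 hn
        have h3 : (1 : ℝ) ≤ ∑ u : U, (if f w = some u ∧ f w' = some u then (1 : ℝ) else 0) := by
          have h4 := Finset.single_le_sum (s := Finset.univ)
            (f := fun u : U => (if f w = some u ∧ f w' = some u then (1 : ℝ) else 0))
            (fun u _ => by split_ifs <;> norm_num) (Finset.mem_univ v)
          have h5 : f w' = some v := by rw [heq, hv]
          simpa [hv, h5] using h4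
        exact h3.trans (Finset.single_le_sum hnn (Finset.mem_erase.2 ⟨hne', hw'⟩))
      · exact Finset.sum_nonneg hnn

end Pool.Agent.H37.Hard
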