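import Pool.Agent.H37.HardCore

set_option autoImplicit false
set_option linter.unusedSectionVars false

/-!
Deterministic placement of a set `S` into an independent set so that most lists stay large.
-/

namespace Pool.Agent.H37.Pot

open Finset Pool.Agent.H37.Hard

variable {W U : Type*} [Fintype W] [Fintype U] [DecidableEq W] [DecidableEq U]

open scoped Classical in
/-- the list of `w` after placing `S` by `f` -/
noncomputable def lst (G : SimpleGraph W) (T : SimpleGraph U) (L0 : W → Finset U)
    (S : Finset W) (f : W → U) (w : W) : Finset U :=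
  (L0 w).filter (fun u => ∀ y ∈ S, G.Adj w y → ¬ T.Adj (f y) u)

lemma mem_lst {G : SimpleGraph W} {T : SimpleGraph U} {L0 : W → Finset U}
    {S : Finset W} {f : W → U} {w : W} {u : U} : u ∈ lst G T L0 S f w ↔
      u ∈ L0 w ∧ ∀ y ∈ S, G.Adj w y → ¬ T.Adj (f y) u := by
  classical
  simp [lst]

lemma real_step {a0 x n : ℝ} (ha0 : 0 < a0) (hx0 : 0 ≤ x) (hx : 2 * x ≤ a0) :
    1 / max (n - x) a0 ≤ (1 / max n a0) * (1 + 2 * x / max n a0) := by
  by_cases h : n ≤ a0
  · rw [max_eq_right h, max_eq_right (by linarith)]
    have : 0 ≤ 2 * x / a0 := by positivity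
    have h1 : 0 < 1 / a0 := by positivity
    nlinarith
  · push Not at h
    rw [max_eq_left h.le]
    have hn : 0 < n := by linarith
    have hnx : 0 < n - x := by linarith
    have h1 : 1 / max (n - x) a0 ≤ 1 / (n - x) :=
      one_div_le_one_div_of_le hnx (le_max_left _ _)
    refine h1.trans ?_
    rw [div_le_iff₀ hnx]
    have h2 : 1 / n * (1 + 2 * x / n) * (n - x) = (n + 2 * x) * (n - x) / n ^ 2 := by
      field_simp
    rw [h2, le_div_iff₀ (by positivity)]
    nlinarith

theorem exists_placement {G : SimpleGraph W} {T : SimpleGraph U} (M : Finset W) {a0 p q : ℝ}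
    {D : ℕ} (hq : 0 ≤ q) (hp : 0 < p) (ha0 : 0 < a0) (ha : 2 * (D : ℝ) ≤ a0)
    (hD : ∀ x, (nb T x).card ≤ D) (S : Finset W) :
    ∀ (I0 : Finset U), ((S.card : ℝ) + p ≤ (I0.card : ℝ)) → ∀ (L0 : W → Finset U),
      (∀ w ∈ M, ∀ u ∈ L0 w, (((nb T u ∩ I0).card : ℕ) : ℝ) ≤ q) →
      ∃ f : W → U, Set.InjOn f S ∧ (∀ y ∈ S, f y ∈ I0) ∧
        ∑ w ∈ M, 1 / max ((lst G T L0 S f w).card : ℝ) a0 ≤
          ∑ w ∈ M, (1 + 2 * q / p) ^ (nb G w ∩ S).card / max ((L0 w).card : ℝ) a0 := by
  classical
  induction S using Finset.induction_on with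
  | empty =>
    intro I0 hI0 L0 _
    have hne : I0.Nonempty := by
      rw [← Finset.card_pos]
      have : (0 : ℝ) < I0.card := by
        simp at hI0; linarith
      exact_mod_cast this
    obtain ⟨x, _⟩ := hne
    refine ⟨fun _ => x, by simp, by simp, ?_⟩
    apply Finset.sum_le_sum
    intro w _
    have h1 : lst G T L0 ∅ (fun _ => x) w = L0 w := by
      ext u; rw [mem_lst]; simp
    rw [h1]
    simp
  | insert y S hy ih =>
    intro I0 hI0 L0 hq0
    set Li : U → W → Finset U := fun i w => if G.Adj w y then L0 w \ nb T i else L0 w with hLi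
    have hLisub : ∀ i w, Li i w ⊆ L0 w := by
      intro i w
      simp only [hLi]
      split_ifs
      · exact Finset.sdiff_subset
      · exact Finset.Subset.refl _
    have hcardS : ((insert y S).card : ℝ) = S.card + 1 := by
      rw [Finset.card_insert_of_notMem hy]; push_cast; ring
    rw [hcardS] at hI0
    have hpI : p ≤ (I0.card : ℝ) := by
      have : (0 : ℝ) ≤ S.card := by positivity
      linarith
    have hI0pos : (0 : ℝ) < I0.card := by linarith
    have hne : I0.Nonempty := by
      rw [← Finset.card_pos]
      exact_mod_cast hI0pos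
    set K : W → ℝ := fun w => (1 + 2 * q / p) ^ (nb G w ∩ S).card with hK
    have hb : 0 ≤ 2 * q / p := by positivity
    have hK0 : ∀ w, 0 ≤ K w := fun w => by simp only [hK]; positivity
    set Φ : U → ℝ := fun i => ∑ w ∈ M, K w / max ((Li i w).card : ℝ) a0 with hΦ
    -- averaging
    have havg : ∑ i ∈ I0, Φ i ≤ ∑ i ∈ I0,
        ∑ w ∈ M, (1 + 2 * q / p) ^ (nb G w ∩ insert y S).card / max ((L0 w).card : ℝ) a0 := by
      simp only [hΦ]
      rw [Finset.sum_comm, Finset.sum_comm (s := I0)]
      apply Finset.sum_le_sum
      intro w hw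
      by_cases hadj : G.Adj w y
      · have h1 : (nb G w ∩ insert y S).card = (nb G w ∩ S).card + 1 := by
          rw [Finset.inter_insert_of_mem (mem_nb.2 hadj), Finset.card_insert_of_notMem]
          intro h; exact hy (Finset.mem_inter.1 h).2
        set m := max ((L0 w).card : ℝ) a0 with hm
        have hm0 : 0 < m := lt_of_lt_of_le ha0 (le_max_right _ _)
        have h2 : ∀ i ∈ I0, K w / max ((Li i w).card : ℝ) a0 ≤
            K w * ((1 / m) * (1 + 2 * ((L0 w ∩ nb T i).card : ℝ) / m)) := by
          intro i hi
          rw [div_eq_mul_one_div]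
          apply mul_le_mul_of_nonneg_left _ (hK0 w)
          have h3 : ((Li i w).card : ℝ) = ((L0 w).card : ℝ) - ((L0 w ∩ nb T i).card : ℝ) := by
            simp only [hLi]
            rw [if_pos hadj]
            have := Finset.card_sdiff_add_card_inter (L0 w) (nb T i)
            have h4 : (((L0 w \ nb T i).card : ℕ) : ℝ) + (((L0 w ∩ nb T i).card : ℕ) : ℝ) =
              (((L0 w).card : ℕ) : ℝ) := by exact_mod_cast this
            linarith
          rw [h3]
          have h5 : ((L0 w ∩ nb T i).card : ℝ) ≤ D := by
            exact_mod_cast (Finset.card_le_card Finset.inter_subset_right).trans (hD i)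
          exact real_step ha0 (Nat.cast_nonneg _) (by linarith)
        refine (Finset.sum_le_sum h2).trans ?_
        have h6 : ∑ i ∈ I0, ((L0 w ∩ nb T i).card : ℝ) ≤ q * m := by
          have h7 : ∑ i ∈ I0, (L0 w ∩ nb T i).card = ∑ u ∈ L0 w, (nb T u ∩ I0).card := by
            have h8 : ∀ i, (L0 w ∩ nb T i).card = ∑ u ∈ L0 w, if T.Adj i u then 1 else 0 := by
              intro i
              rw [← Finset.card_filter]
              congr 1
              ext u
              simp [mem_nb]
            have h9 : ∀ u, (nb T u ∩ I0).card = ∑ i ∈ I0, if T.Adj i u then 1 else 0 := by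
              intro u
              rw [← Finset.card_filter]
              congr 1
              ext i
              rw [Finset.mem_inter, Finset.mem_filter, mem_nb]
              constructor
              · rintro ⟨h, h'⟩; exact ⟨h', h.symm⟩
              · rintro ⟨h, h'⟩; exact ⟨h'.symm, h⟩
            rw [Finset.sum_congr rfl (fun i _ => h8 i), Finset.sum_congr rfl (fun u _ => h9 u)]
            exact Finset.sum_comm
          have h10 : (∑ i ∈ I0, ((L0 w ∩ nb T i).card : ℝ)) =
              ∑ u ∈ L0 w, ((nb T u ∩ I0).card : ℝ) := by exact_mod_cast h7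
          rw [h10]
          calc ∑ u ∈ L0 w, ((nb T u ∩ I0).card : ℝ) ≤ ∑ u ∈ L0 w, q :=
                Finset.sum_le_sum (fun u hu => hq0 w hw u hu)
            _ = ((L0 w).card : ℝ) * q := by rw [Finset.sum_const, nsmul_eq_mul]
            _ ≤ m * q := mul_le_mul_of_nonneg_right (le_max_left _ _) hq
            _ = q * m := mul_comm _ _
        rw [h1, pow_succ]
        have h11 : ∑ i ∈ I0, K w * ((1 / m) * (1 + 2 * ((L0 w ∩ nb T i).card : ℝ) / m)) =
            K w * (1 / m) * ((I0.card : ℝ) + 2 / m * ∑ i ∈ I0, ((L0 w ∩ nb T i).card : ℝ)) := by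
          rw [Finset.mul_sum, mul_add, Finset.mul_sum]
          have h12 : K w * (1 / m) * (I0.card : ℝ) = ∑ i ∈ I0, K w * (1 / m) := by
            rw [Finset.sum_const, nsmul_eq_mul]; ring
          rw [h12, ← Finset.sum_add_distrib]
          apply Finset.sum_congr rfl
          intro i _
          ring
        rw [h11, Finset.sum_const, nsmul_eq_mul]
        have h13 : (I0.card : ℝ) + 2 / m * ∑ i ∈ I0, ((L0 w ∩ nb T i).card : ℝ) ≤
            (I0.card : ℝ) * (1 + 2 * q / p) := by
          have h14 : 2 / m * ∑ i ∈ I0, ((L0 w ∩ nb T i).card : ℝ) ≤ 2 / m * (q * m) :=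
            mul_le_mul_of_nonneg_left h6 (by positivity)
          have h15 : 2 / m * (q * m) = 2 * q := by field_simp
          have h16 : 2 * q ≤ (I0.card : ℝ) * (2 * q / p) := by
            rw [mul_div_assoc', le_div_iff₀ hp]
            nlinarith
          linarith
        calc K w * (1 / m) * ((I0.card : ℝ) + 2 / m * ∑ i ∈ I0, ((L0 w ∩ nb T i).card : ℝ))
            ≤ K w * (1 / m) * ((I0.card : ℝ) * (1 + 2 * q / p)) :=
              mul_le_mul_of_nonneg_left h13 (mul_nonneg (hK0 w) (by positivity))
          _ = (I0.card : ℝ) * ((1 + 2 * q / p) ^ (nb G w ∩ S).card * (1 + 2 * q / p) / m) := by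
              simp only [hK]; ring
      · have h1 : (nb G w ∩ insert y S).card = (nb G w ∩ S).card := by
          rw [Finset.inter_insert_of_notMem (fun h => hadj (mem_nb.1 h))]
        rw [h1]
        apply le_of_eq
        apply Finset.sum_congr rfl
        intro i _
        simp only [hLi, hK]
        rw [if_neg hadj]
    obtain ⟨i, hi, hiΦ⟩ := Finset.exists_le_of_sum_le hne havg
    have hI0' : ((S.card : ℝ) + p ≤ ((I0.erase i).card : ℝ)) := by
      rw [Finset.card_erase_of_mem hi]
      have : 1 ≤ I0.card := Finset.card_pos.2 hne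
      push_cast [Nat.cast_sub this]
      linarith
    have hq' : ∀ w ∈ M, ∀ u ∈ Li i w, (((nb T u ∩ I0.erase i).card : ℕ) : ℝ) ≤ q := by
      intro w hw u hu
      refine le_trans ?_ (hq0 w hw u (hLisub i w hu))
      exact_mod_cast Finset.card_le_card
        (Finset.inter_subset_inter_left (Finset.erase_subset _ _))
    obtain ⟨f, hf1, hf2, hf3⟩ := ih (I0.erase i) hI0' (Li i) hq'
    refine ⟨Function.update f y i, ?_, ?_, ?_⟩
    · intro a ha b hb hab
      rw [Finset.mem_coe, Finset.mem_insert] at ha hb
      rcases ha with rfl | ha <;> rcases hb with rfl | hb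
      · rfl
      · have hne : b ≠ a := fun h => hy (h ▸ hb)
        rw [Function.update_self, Function.update_of_ne hne] at hab
        exact absurd hab.symm (Finset.mem_erase.1 (hf2 b hb)).1
      · have hne : a ≠ b := fun h => hy (h ▸ ha)
        rw [Function.update_self, Function.update_of_ne hne] at hab
        exact absurd hab (Finset.mem_erase.1 (hf2 a ha)).1
      · have hne : a ≠ y := fun h => hy (h ▸ ha)
        have hne' : b ≠ y := fun h => hy (h ▸ hb)
        rw [Function.update_of_ne hne, Function.update_of_ne hne'] at hab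
        exact hf1 ha hb hab
    · intro a ha
      rw [Finset.mem_insert] at ha
      rcases ha with rfl | ha
      · rw [Function.update_self]; exact hi
      · have hne : a ≠ y := fun h => hy (h ▸ ha)
        rw [Function.update_of_ne hne]
        exact Finset.mem_of_mem_erase (hf2 a ha)
    · have hlst : ∀ w, lst G T L0 (insert y S) (Function.update f y i) w = lst G T (Li i) S f w := by
        intro w
        ext u
        rw [mem_lst, mem_lst]
        simp only [hLi]
        constructor
        · rintro ⟨h1, h2⟩
          refine ⟨?_, ?_⟩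
          · split_ifs with hadj
            · rw [Finset.mem_sdiff]
              refine ⟨h1, fun h => ?_⟩
              have := h2 y (Finset.mem_insert_self _ _) hadj
              rw [Function.update_self] at this
              exact this (mem_nb.1 h)
            · exact h1
          · intro a ha hadj
            have hne : a ≠ y := fun h => hy (h ▸ ha)
            have := h2 a (Finset.mem_insert_of_mem ha) hadj
            rwa [Function.update_of_ne hne] at this
        · rintro ⟨h1, h2⟩
          refine ⟨?_, ?_⟩
          · split_ifs at h1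
            · exact (Finset.mem_sdiff.1 h1).1
            · exact h1
          · intro a ha hadj
            rw [Finset.mem_insert] at ha
            rcases ha with rfl | ha
            · rw [Function.update_self]
              rw [if_pos hadj, Finset.mem_sdiff] at h1
              exact fun h => h1.2 (mem_nb.2 h)
            · have hne : a ≠ y := fun h => hy (h ▸ ha)
              rw [Function.update_of_ne hne]
              exact h2 a ha hadj
      simp only [hlst]
      exact hf3.trans hiΦ

end Pool.Agent.H37.Pot
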