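import Pool.Agent.H37.HardCore5
import Pool.Agent.H37.Placement

set_option autoImplicit false
set_option linter.unusedSectionVars false

/-!
The embedding lemma: a pattern with a small placed part and small degrees in the remaining part
embeds in the complement of a triangle-free host.
-/

namespace Pool.Agent.H37

open Finset Pool.Agent.H37.Hard Pool.Agent.H37.Pot

/-- the part `A` of the pattern `G` embeds in the complement of the host `T` -/
def EmbOn {W U : Type*} (G : SimpleGraph W) (T : SimpleGraph U) (A : Finset W) : Prop :=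
  ∃ f : W → U, Set.InjOn f A ∧ ∀ a ∈ A, ∀ b ∈ A, G.Adj a b → ¬ T.Adj (f a) (f b)

section

variable {W U : Type*} [Fintype W] [Fintype U] [DecidableEq W] [DecidableEq U]

lemma hall_greedy [Nonempty U] (L : Finset W) (Aw : W → Finset U) (n : ℕ) (hn : L.card ≤ n)
    (h : ∀ w ∈ L, n ≤ (Aw w).card) : ∃ g : W → U, Set.InjOn g L ∧ ∀ w ∈ L, g w ∈ Aw w := by
  classical
  induction L using Finset.induction_on with
  | empty =>
    obtain ⟨u⟩ := (inferInstance : Nonempty U)
    exact ⟨fun _ => u, by simp, by simp⟩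
  | insert w L hw ih =>
    have hcard : (insert w L).card = L.card + 1 := Finset.card_insert_of_notMem hw
    obtain ⟨g, hg1, hg2⟩ := ih (by omega) (fun v hv => h v (Finset.mem_insert_of_mem hv))
    have h1 : (L.image g).card < (Aw w).card := by
      have h2 := h w (Finset.mem_insert_self _ _)
      have h3 : (L.image g).card ≤ L.card := Finset.card_image_le
      omega
    obtain ⟨u, hu, hu'⟩ := Finset.exists_mem_notMem_of_card_lt_card h1
    refine ⟨Function.update g w u, ?_, ?_⟩
    · intro a ha b hb hab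
      rw [Finset.mem_coe, Finset.mem_insert] at ha hb
      rcases ha with rfl | ha <;> rcases hb with rfl | hb
      · rfl
      · have hne : b ≠ a := fun h => hw (h ▸ hb)
        rw [Function.update_self, Function.update_of_ne hne] at hab
        exact absurd (Finset.mem_image.2 ⟨b, hb, hab.symm⟩) hu'
      · have hne : a ≠ b := fun h => hw (h ▸ ha)
        rw [Function.update_self, Function.update_of_ne hne] at hab
        exact absurd (Finset.mem_image.2 ⟨a, ha, hab⟩) hu'
      · have hne : a ≠ w := fun h => hw (h ▸ ha)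
        have hne' : b ≠ w := fun h => hw (h ▸ hb)
        rw [Function.update_of_ne hne, Function.update_of_ne hne'] at hab
        exact hg1 ha hb hab
    · intro a ha
      rw [Finset.mem_insert] at ha
      rcases ha with rfl | ha
      · rw [Function.update_self]; exact hu
      · have hne : a ≠ w := fun h => hw (h ▸ ha)
        rw [Function.update_of_ne hne]
        exact hg2 a ha

lemma sum_nb_inter (T : SimpleGraph U) (R : Finset U) {D : ℕ} (hD : ∀ x, (nb T x).card ≤ D) :
    ∑ u, (nb T u ∩ R).card ≤ R.card * D := by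
  classical
  have h1 : ∀ u, (nb T u ∩ R).card = ∑ r ∈ R, if T.Adj u r then 1 else 0 := by
    intro u
    rw [← Finset.card_filter]
    congr 1
    ext i
    rw [Finset.mem_inter, Finset.mem_filter, mem_nb, and_comm]
  rw [Finset.sum_congr rfl (fun u _ => h1 u), Finset.sum_comm]
  calc ∑ r ∈ R, ∑ u, (if T.Adj u r then 1 else 0) ≤ ∑ r ∈ R, D := by
        apply Finset.sum_le_sum
        intro r _
        rw [← Finset.card_filter]
        refine le_trans (Finset.card_le_card ?_) (hD r)
        intro u hu
        rw [Finset.mem_filter] at hu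
        exact mem_nb.2 hu.2.symm
    _ = R.card * D := by rw [Finset.sum_const, smul_eq_mul]

lemma markov_nb (T : SimpleGraph U) (R : Finset U) {D : ℕ} (hD : ∀ x, (nb T x).card ≤ D)
    {x : ℝ} :
    ((univ.filter (fun u => x < ((nb T u ∩ R).card : ℝ))).card : ℝ) * x ≤ R.card * D := by
  have h1 : ∑ u ∈ univ.filter (fun u => x < ((nb T u ∩ R).card : ℝ)), x ≤
      ∑ u, ((nb T u ∩ R).card : ℝ) := by
    calc ∑ u ∈ univ.filter (fun u => x < ((nb T u ∩ R).card : ℝ)), x
        ≤ ∑ u ∈ univ.filter (fun u => x < ((nb T u ∩ R).card : ℝ)), ((nb T u ∩ R).card : ℝ) := by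
          apply Finset.sum_le_sum
          intro u hu
          exact (Finset.mem_filter.1 hu).2.le
      _ ≤ ∑ u, ((nb T u ∩ R).card : ℝ) :=
          Finset.sum_le_sum_of_subset_of_nonneg (Finset.filter_subset _ _)
            (fun _ _ _ => by positivity)
  rw [Finset.sum_const, nsmul_eq_mul] at h1
  refine h1.trans ?_
  exact_mod_cast sum_nb_inter T R hD

/-- the typical vertices outside `I` -/
lemma exists_V0 (T : SimpleGraph U) (I R I0 : Finset U) {D : ℕ} (hD : ∀ x, (nb T x).card ≤ D)
    (hD0 : 0 < D) {τ : ℝ} (hτ0 : 0 < τ) (hτ : τ ≤ 1 / 4) (hI : I.card ≤ D) (hI0 : I0.card ≤ D)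
    (hR : 0 < R.card) (hN : 20 / τ * D ≤ (Fintype.card U : ℝ)) :
    ∃ V0 : Finset U, τ / 2 * (Fintype.card U : ℝ) ≤ (V0.card : ℝ) ∧ (∀ u ∈ V0, u ∉ I) ∧
      (∀ u ∈ V0, ((nb T u ∩ R).card : ℝ) ≤ (1 + τ) * R.card * D / (Fintype.card U : ℝ)) ∧
      (∀ u ∈ V0, ((nb T u ∩ I0).card : ℝ) ≤ 4 / τ * D ^ 2 / (Fintype.card U : ℝ)) := by
  classical
  set N : ℝ := (Fintype.card U : ℝ) with hNdef
  have hDr : (0 : ℝ) < D := by exact_mod_cast hD0
  have hN0 : 0 < N := lt_of_lt_of_le (by positivity) hN
  have hRr : (0 : ℝ) < R.card := by exact_mod_cast hR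
  set x1 : ℝ := (1 + τ) * R.card * D / N with hx1
  set x2 : ℝ := 4 / τ * D ^ 2 / N with hx2
  have hx1p : 0 < x1 := by positivity
  have hx2p : 0 < x2 := by positivity
  set B1 := univ.filter (fun u => x1 < ((nb T u ∩ R).card : ℝ)) with hB1
  set B2 := univ.filter (fun u => x2 < ((nb T u ∩ I0).card : ℝ)) with hB2
  refine ⟨univ \ (I ∪ (B1 ∪ B2)), ?_, ?_, ?_, ?_⟩
  · have h1 : (B1.card : ℝ) * x1 ≤ R.card * D := markov_nb T R hD
    have h2 : (B2.card : ℝ) * x2 ≤ I0.card * D := markov_nb T I0 hD
    have h3 : (B1.card : ℝ) ≤ N / (1 + τ) := by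
      have h4 : (B1.card : ℝ) * x1 = (B1.card : ℝ) * (1 + τ) / N * (R.card * D) := by
        rw [hx1]; ring
      rw [h4] at h1
      have h5 : (B1.card : ℝ) * (1 + τ) / N ≤ 1 := by
        by_contra hcon
        push Not at hcon
        have : (R.card : ℝ) * D < (B1.card : ℝ) * (1 + τ) / N * (R.card * D) := by
          have h6 : (0 : ℝ) < R.card * D := by positivity
          nlinarith
        linarith
      rw [div_le_one hN0] at h5
      rw [le_div_iff₀ (by linarith)]
      exact h5
    have h7 : (B2.card : ℝ) ≤ τ * N / 4 := by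
      have h8 : (I0.card : ℝ) * D ≤ D ^ 2 := by
        have : (I0.card : ℝ) ≤ D := by exact_mod_cast hI0
        nlinarith
      have h9 : (B2.card : ℝ) * x2 ≤ D ^ 2 := h2.trans h8
      have h10 : (B2.card : ℝ) * x2 = (B2.card : ℝ) * (4 / (τ * N)) * D ^ 2 := by
        rw [hx2]; field_simp
      rw [h10] at h9
      have h11 : (B2.card : ℝ) * (4 / (τ * N)) ≤ 1 := by
        by_contra hcon
        push Not at hcon
        have h12 : (0 : ℝ) < (D : ℝ) ^ 2 := by positivity
        nlinarith
      rw [mul_div_assoc', div_le_one (by positivity)] at h11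
      linarith
    have h13 : (I.card : ℝ) ≤ τ * N / 20 := by
      have h14 : (I.card : ℝ) ≤ D := by exact_mod_cast hI
      have h15 : (D : ℝ) ≤ τ * N / 20 := by
        rw [div_mul_eq_mul_div, div_le_iff₀ hτ0] at hN
        linarith
      linarith
    have h16 : ((univ \ (I ∪ (B1 ∪ B2))).card : ℝ) ≥ N - (I.card + (B1.card + B2.card)) := by
      have h17 : (univ : Finset U).card ≤ (univ \ (I ∪ (B1 ∪ B2))).card + (I ∪ (B1 ∪ B2)).card := by
        have := Finset.le_card_sdiff (I ∪ (B1 ∪ B2)) (univ : Finset U)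
        omega
      have h18 : (I ∪ (B1 ∪ B2)).card ≤ I.card + (B1.card + B2.card) :=
        (Finset.card_union_le _ _).trans (Nat.add_le_add_left (Finset.card_union_le _ _) _)
      have h19 : Fintype.card U ≤ (univ \ (I ∪ (B1 ∪ B2))).card + (I.card + (B1.card + B2.card)) := by
        rw [Finset.card_univ] at h17; omega
      have h20 : (Fintype.card U : ℝ) ≤ ((univ \ (I ∪ (B1 ∪ B2))).card : ℝ) +
        ((I.card : ℝ) + ((B1.card : ℝ) + (B2.card : ℝ))) := by exact_mod_cast h19
      linarith
    have h21 : N / (1 + τ) ≤ N - 4 / 5 * τ * N := by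
      rw [div_le_iff₀ (by linarith)]
      nlinarith [mul_nonneg hτ0.le hN0.le, mul_nonneg (mul_nonneg hτ0.le hN0.le)
        (by linarith : (0 : ℝ) ≤ 1 / 4 - τ)]
    have h22 : 0 ≤ τ * N := by positivity
    linarith
  · intro u hu
    rw [Finset.mem_sdiff, Finset.mem_union, Finset.mem_union] at hu
    tauto
  · intro u hu
    rw [Finset.mem_sdiff, Finset.mem_union, Finset.mem_union] at hu
    have : u ∉ B1 := by tauto
    rw [hB1, Finset.mem_filter] at this
    push Not at this
    exact this (Finset.mem_univ u)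
  · intro u hu
    rw [Finset.mem_sdiff, Finset.mem_union, Finset.mem_union] at hu
    have : u ∉ B2 := by tauto
    rw [hB2, Finset.mem_filter] at this
    push Not at this
    exact this (Finset.mem_univ u)

end

end Pool.Agent.H37
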