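import Pool.Agent.H37.LemmaE

set_option autoImplicit false
set_option linter.unusedSectionVars false

/-!
The embedding lemma.
-/

namespace Pool.Agent.H37

open Finset Pool.Agent.H37.Hard Pool.Agent.H37.Pot

universe u v

/-- gluing three partial placements -/
lemma glue {W : Type u} {U : Type v} [Fintype W] [Fintype U] [DecidableEq W] [DecidableEq U]
    {G : SimpleGraph W} {T : SimpleGraph U} {A S P : Finset W} {I R V0 : Finset U}
    (hI : ∀ a ∈ I, ∀ b ∈ I, ¬ T.Adj a b) (hR : R ⊆ I) (hV0 : ∀ u ∈ V0, u ∉ I)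
    (φ g h : W → U)
    (hφ : Set.InjOn φ S) (hφI : ∀ y ∈ S, φ y ∈ I \ R)
    (hg : Set.InjOn g P) (hgV : ∀ w ∈ P, g w ∈ V0)
    (hgφ : ∀ w ∈ P, ∀ y ∈ S, G.Adj w y → ¬ T.Adj (φ y) (g w))
    (hgg : ∀ w ∈ P, ∀ w' ∈ P, G.Adj w w' → ¬ T.Adj (g w) (g w'))
    (hh : Set.InjOn h ((A \ S) \ P : Finset W)) (hhR : ∀ w ∈ (A \ S) \ P, h w ∈ R)
    (hhg : ∀ w ∈ (A \ S) \ P, ∀ y ∈ P, G.Adj w y → ¬ T.Adj (g y) (h w))
    (hPS : ∀ w ∈ P, w ∉ S) :
    EmbOn G T A := by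
  classical
  set f : W → U := fun w => if w ∈ S then φ w else if w ∈ P then g w else h w with hf
  have f1 : ∀ w ∈ S, f w = φ w := fun w hw => by simp only [hf]; rw [if_pos hw]
  have f2 : ∀ w ∈ P, f w = g w := fun w hw => by
    simp only [hf]; rw [if_neg (hPS w hw), if_pos hw]
  have f3 : ∀ w ∈ (A \ S) \ P, f w = h w := fun w hw => by
    rw [Finset.mem_sdiff, Finset.mem_sdiff] at hw
    simp only [hf]; rw [if_neg hw.1.2, if_neg hw.2]
  have hcase : ∀ w ∈ A, w ∈ S ∨ w ∈ P ∨ w ∈ (A \ S) \ P := by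
    intro w hw
    rw [Finset.mem_sdiff, Finset.mem_sdiff]
    tauto
  have hIRI : ∀ u ∈ I \ R, u ∈ I ∧ u ∉ R := fun u hu => Finset.mem_sdiff.1 hu
  refine ⟨f, ?_, ?_⟩
  · intro a ha b hb hab
    rw [Finset.mem_coe] at ha hb
    rcases hcase a ha with ha | ha | ha <;> rcases hcase b hb with hb | hb | hb
    · rw [f1 a ha, f1 b hb] at hab
      exact hφ ha hb hab
    · rw [f1 a ha, f2 b hb] at hab
      exact absurd (hIRI _ (hφI a ha)).1 (hab ▸ hV0 _ (hgV b hb))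
    · rw [f1 a ha, f3 b hb] at hab
      exact absurd (hab ▸ hhR b hb) (hIRI _ (hφI a ha)).2
    · rw [f2 a ha, f1 b hb] at hab
      exact absurd (hIRI _ (hφI b hb)).1 (hab ▸ hV0 _ (hgV a ha))
    · rw [f2 a ha, f2 b hb] at hab
      exact hg ha hb hab
    · rw [f2 a ha, f3 b hb] at hab
      exact absurd (hR (hhR b hb)) (hab ▸ hV0 _ (hgV a ha))
    · rw [f3 a ha, f1 b hb] at hab
      exact absurd (hab ▸ hhR a ha) (hIRI _ (hφI b hb)).2
    · rw [f3 a ha, f2 b hb] at hab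
      exact absurd (hR (hhR a ha)) (hab ▸ hV0 _ (hgV b hb))
    · rw [f3 a ha, f3 b hb] at hab
      exact hh (Finset.mem_coe.2 ha) (Finset.mem_coe.2 hb) hab
  · intro a ha b hb hadj
    rcases hcase a ha with ha | ha | ha <;> rcases hcase b hb with hb | hb | hb
    · rw [f1 a ha, f1 b hb]
      exact hI _ (hIRI _ (hφI a ha)).1 _ (hIRI _ (hφI b hb)).1
    · rw [f1 a ha, f2 b hb]
      exact hgφ b hb a ha hadj.symm
    · rw [f1 a ha, f3 b hb]
      exact hI _ (hIRI _ (hφI a ha)).1 _ (hR (hhR b hb))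
    · rw [f2 a ha, f1 b hb]
      exact fun hT => hgφ a ha b hb hadj hT.symm
    · rw [f2 a ha, f2 b hb]
      exact hgg a ha b hb hadj
    · rw [f2 a ha, f3 b hb]
      exact hhg b hb a ha hadj.symm
    · rw [f3 a ha, f1 b hb]
      exact hI _ (hR (hhR a ha)) _ (hIRI _ (hφI b hb)).1
    · rw [f3 a ha, f2 b hb]
      exact fun hT => hhg a ha b hb hadj hT.symm
    · rw [f3 a ha, f3 b hb]
      exact hI _ (hR (hhR a ha)) _ (hR (hhR b hb))

end Pool.Agent.H37
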