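import Pool.Agent.H691.Geo.Stm

/-!
# Max-min area triangulations: assembly of the two geometric theorems P1 and P2
-/

set_option autoImplicit false

namespace Pool.Agent.H37.MMGA

open Pool.Agent.W982.TA
open Pool.Agent.H691.Geo

/-- P1 from its parts -/
theorem taskP1 (_a : TaskP1a) (b : TaskP1b) (c : TaskP1c) : TaskP1 := by
  intro X Y N W hX hY hN hW hM
  obtain ⟨T, hT, hA⟩ := hM
  have hpar : Par X Y N W := ⟨hX, hY, hN, hW⟩
  have hgood : Good X Y N W T := by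
    refine ⟨hT, ?_⟩
    intro p q r h
    have h1 := hA p q r h
    have h2 : (2 * N : ℚ) ≤ ((|dt p q r| : ℤ) : ℚ) := by linarith
    exact_mod_cast h2
  have hex : ∀ (w : Pt) (s : Bool), ∃ v : Pt, w ∈ W → (Int.gcd v.1 v.2 = 1 ∧
      2 ≤ (if s = true then (1 : ℤ) else -1) * v.2 ∧ w + v ∈ box X Y ∧ Near X Y N T w v) := by
    intro w s
    by_cases hw : w ∈ W
    · have hσ : (if s = true then (1 : ℤ) else -1) = 1 ∨
          (if s = true then (1 : ℤ) else -1) = -1 := by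
        cases s <;> simp
      obtain ⟨v, hv⟩ := b X Y N W T hpar hgood w hw _ hσ
      exact ⟨v, fun _ => hv⟩
    · exact ⟨0, fun h => absurd h hw⟩
  choose f hf using hex
  refine ⟨f, ?_, ?_, ?_, ?_, ?_⟩
  · intro w hw s
    exact (hf w s hw).1
  · intro w hw
    have h := (hf w true hw).2.1
    simpa using h
  · intro w hw
    have h := (hf w false hw).2.1
    simp only [Bool.false_eq_true, if_false] at h
    omega
  · intro w hw s
    exact (hf w s hw).2.2.1
  · intro w hw s w' hw' s'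
    exact c X Y N W T hpar hgood w (f w s) w' (f w' s') (hf w s hw).2.2.2 (hf w' s' hw').2.2.2

theorem oseg_symm (p q : Pt) : oseg p q = oseg q p := by
  unfold oseg
  exact openSegment_symm ℝ _ _

theorem isSeg_symm {S : Finset Pt} {p q : Pt} (h : IsSeg S p q) : IsSeg S q p := by
  obtain ⟨h1, h2, h3, h4⟩ := h
  refine ⟨h2, h1, h3.symm, ?_⟩
  rwa [oseg_symm] at h4

theorem pcross_swap_left {a b c d : Pt} (h : PCross a b c d) : PCross b a c d := by
  obtain ⟨h1, h2⟩ := h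
  refine ⟨?_, ?_⟩
  · have e1 : dt b a c = -dt a b c := by simp only [dt]; ring
    have e2 : dt b a d = -dt a b d := by simp only [dt]; ring
    rw [e1, e2, neg_mul_neg]
    exact h1
  · rw [mul_comm]
    exact h2

theorem pcross_swap_right {a b c d : Pt} (h : PCross a b c d) : PCross a b d c := by
  obtain ⟨h1, h2⟩ := h
  refine ⟨?_, ?_⟩
  · rw [mul_comm]
    exact h1
  · have e1 : dt d c a = -dt c d a := by simp only [dt]; ring
    have e2 : dt d c b = -dt c d b := by simp only [dt]; ring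
    rw [e1, e2, neg_mul_neg]
    exact h2

/-- there is no lattice point in the open segment of a primitive vector -/
theorem prim_oseg (w v r : Pt) (hv : Int.gcd v.1 v.2 = 1) : emb r ∉ oseg w (w + v) := by
  rintro ⟨a, b, ha, hb, hab, h⟩
  have h1 : a * (w.1 : ℝ) + b * ((w.1 : ℝ) + (v.1 : ℝ)) = (r.1 : ℝ) := by
    have := congrArg Prod.fst h
    simpa [emb] using this
  have h2 : a * (w.2 : ℝ) + b * ((w.2 : ℝ) + (v.2 : ℝ)) = (r.2 : ℝ) := by
    have := congrArg Prod.snd h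
    simpa [emb] using this
  have ha' : a = 1 - b := by linarith
  subst ha'
  have h3 : ((r.1 - w.1 : ℤ) : ℝ) = b * (v.1 : ℝ) := by push_cast; linarith
  have h4 : ((r.2 - w.2 : ℤ) : ℝ) = b * (v.2 : ℝ) := by push_cast; linarith
  have hbez := Int.gcd_eq_gcd_ab v.1 v.2
  rw [hv] at hbez
  have h5 : (((v.1 : ℝ)) * (Int.gcdA v.1 v.2 : ℝ) + (v.2 : ℝ) * (Int.gcdB v.1 v.2 : ℝ)) = 1 := by
    exact_mod_cast hbez.symm
  have h6 : (((r.1 - w.1) * Int.gcdA v.1 v.2 + (r.2 - w.2) * Int.gcdB v.1 v.2 : ℤ) : ℝ) = b := by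
    rw [Int.cast_add, Int.cast_mul, Int.cast_mul, h3, h4]
    calc b * (v.1 : ℝ) * (Int.gcdA v.1 v.2 : ℝ) + b * (v.2 : ℝ) * (Int.gcdB v.1 v.2 : ℝ)
        = b * (((v.1 : ℝ)) * (Int.gcdA v.1 v.2 : ℝ) + (v.2 : ℝ) * (Int.gcdB v.1 v.2 : ℝ)) := by
          ring
      _ = b := by rw [h5, mul_one]
  have hb1 : b < 1 := by linarith
  rw [← h6] at hb hb1
  have h7 : (0 : ℤ) < (r.1 - w.1) * Int.gcdA v.1 v.2 + (r.2 - w.2) * Int.gcdB v.1 v.2 := by
    exact_mod_cast hb
  have h8 : (r.1 - w.1) * Int.gcdA v.1 v.2 + (r.2 - w.2) * Int.gcdB v.1 v.2 < 1 := by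
    exact_mod_cast hb1
  omega

/-- a family of segments without proper crossings extends to a triangulation -/
theorem extend (g4 : TaskG4) (g5 : TaskG5) (S : Finset Pt) (F : Set (Sym2 Pt))
    (h1 : ∀ p q, s(p, q) ∈ F → IsSeg S p q)
    (h2 : ∀ p q p' q', s(p, q) ∈ F → s(p', q') ∈ F → ¬ PCross p q p' q') :
    ∃ T, IsTriangulation S T ∧ F ⊆ T := by
  refine g5 S F h1 ?_
  intro p q p' q' hp hp' hne
  by_contra hd
  obtain ⟨a1, a2, a3, a4⟩ := h1 p q hp
  obtain ⟨b1, b2, b3, b4⟩ := h1 p' q' hp'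
  exact h2 p q p' q' hp hp' (g4 p q p' q' a3 b3 hne (b4 p a1) (b4 q a2) (a4 p' b1) (a4 q' b2) hd)

/-- P2 from its parts -/
theorem taskP2 (a : TaskP2a) (b : TaskP2b) (c : TaskP2c) (_g3 : TaskG3) (g4 : TaskG4)
    (g5 : TaskG5) : TaskP2 := by
  intro X Y N W f hX hY hN hW hsel hout
  have hpar : Par X Y N W := ⟨hX, hY, hN, hW⟩
  -- the coarse family
  have hseg : ∀ w ∈ W, ∀ s, IsSeg (box X Y) w (w + f w s) := by
    intro w hw s
    refine ⟨lbox_box (hW hw), hsel.mem w hw s, ?_, ?_⟩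
    · intro h
      have h0 : f w s = 0 := by
        have : w + f w s = w + 0 := by rw [← h, add_zero]
        exact add_left_cancel this
      have hp := hsel.prim w hw s
      rw [h0] at hp
      simp at hp
    · intro r _
      exact prim_oseg w (f w s) r (hsel.prim w hw s)
  obtain ⟨Ts, hTs, hFT⟩ := extend g4 g5 (box X Y) {e | ∃ w ∈ W, ∃ s, e = s(w, w + f w s)}
    (by
      rintro p q ⟨w, hw, s, he⟩
      rcases Sym2.eq_iff.1 he with ⟨rfl, rfl⟩ | ⟨rfl, rfl⟩
      · exact hseg _ hw s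
      · exact isSeg_symm (hseg _ hw s))
    (by
      rintro p q p' q' ⟨w, hw, s, he⟩ ⟨w', hw', s', he'⟩ hc
      have h0 := hsel.disj w hw s w' hw' s'
      rcases Sym2.eq_iff.1 he with ⟨rfl, rfl⟩ | ⟨rfl, rfl⟩ <;>
        rcases Sym2.eq_iff.1 he' with ⟨rfl, rfl⟩ | ⟨rfl, rfl⟩
      · exact h0 hc
      · exact h0 (pcross_swap_right hc)
      · exact h0 (pcross_swap_left hc)
      · exact h0 (pcross_swap_left (pcross_swap_right hc)))
  have hlft : Lft X Y W f Ts := ⟨hsel, hout, hTs, fun w hw s => hFT ⟨w, hw, s, rfl⟩⟩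
  obtain ⟨T, hT, hsub⟩ := extend g4 g5 (SS X Y N W) (Fam N W f Ts)
    (fun P Q h => a X Y N W f Ts hpar hlft P Q h)
    (fun P Q P' Q' h h' => b X Y N W f Ts hpar hlft P Q P' Q' h h')
  refine ⟨T, hT, ?_⟩
  intro p q r h
  have h1 := c X Y N W f Ts hpar hlft T hT hsub p q r h
  have h2 : (2 * N : ℚ) ≤ ((|dt p q r| : ℤ) : ℚ) := by exact_mod_cast h1
  linarith

end Pool.Agent.H37.MMGA
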