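import Pool.Agent.H37.Split

set_option autoImplicit false
set_option linter.unusedSectionVars false

/-!
Sidorenko's bound for graphs with linearly many edges (large constant).
-/

namespace Pool.Agent.H37

open Finset Pool.Agent.H37.Hard

universe u v

/-- the embedding theorem in terms of finsets -/
theorem main_embed : ∃ K : ℕ, ∀ (W : Type u) (U : Type v) [Fintype W] [Fintype U] [DecidableEq W]
    [DecidableEq U] [Nonempty U] (G : SimpleGraph W) (T : SimpleGraph U),
    (∀ u a b, T.Adj u a → T.Adj u b → ¬ T.Adj a b) →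
    Fintype.card W + G.edgeSet.ncard ≤ Fintype.card U →
    K * Fintype.card W ≤ G.edgeSet.ncard → EmbOn G T Finset.univ := by
  classical
  obtain ⟨C1, hC1, hE⟩ := lemmaE.{u, v} (τ := 1 / 4000) (ρ := 1 / 2000) (C := 4000)
    (by norm_num) (by norm_num) (by norm_num) (by norm_num) (by norm_num)
  refine ⟨⌈2 * C1⌉₊ + 150000, ?_⟩
  intro W U _ _ _ _ _ G T hT hN hm
  set m := G.edgeSet.ncard with hmdef
  obtain ⟨x0, _, hx0⟩ := Finset.exists_max_image (Finset.univ : Finset U) (fun x => (nb T x).card)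
    Finset.univ_nonempty
  set D := (nb T x0).card with hDdef
  have hD : ∀ x, (nb T x).card ≤ D := fun x => hx0 x (Finset.mem_univ x)
  have hI : ∀ a ∈ nb T x0, ∀ b ∈ nb T x0, ¬ T.Adj a b :=
    fun a ha b hb => hT x0 a b (mem_nb.1 ha) (mem_nb.1 hb)
  by_cases hDk : Fintype.card W ≤ D
  · exact embOn_of_card_le hI Finset.univ (by rw [Finset.card_univ]; exact hDk)
  push Not at hDk
  apply emb_of_core hD hN
  intro A hAne hcore
  obtain ⟨v0, hv0⟩ := hAne
  -- real quantities
  have hDpos : 0 < D := by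
    rcases Nat.eq_zero_or_pos D with h | h
    · have := hcore v0 hv0
      rw [h] at this
      simp at this
    · exact h
  have hDr : (0 : ℝ) < D := by exact_mod_cast hDpos
  set d0 : ℝ := (m : ℝ) / D with hd0
  have hd0D : d0 * D = m := by rw [hd0]; field_simp
  have hmr : ((⌈2 * C1⌉₊ : ℝ) + 150000) * (Fintype.card W : ℝ) ≤ m := by exact_mod_cast hm
  have hDkr : (D : ℝ) ≤ (Fintype.card W : ℝ) := by exact_mod_cast hDk.le
  have hceil : 2 * C1 ≤ (⌈2 * C1⌉₊ : ℝ) := Nat.le_ceil _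
  have hd0lo : (⌈2 * C1⌉₊ : ℝ) + 150000 ≤ d0 := by
    rw [hd0, le_div_iff₀ hDr]
    refine le_trans ?_ hmr
    apply mul_le_mul_of_nonneg_left hDkr
    positivity
  have hd0p : 0 < d0 := by linarith
  have hcore' : ∀ v ∈ A, d0 < ((nb G v ∩ A).card : ℝ) := by
    intro v hv
    rw [hd0, div_lt_iff₀ hDr]
    exact_mod_cast hcore v hv
  have hdd : (dd G A : ℝ) ≤ 2 * d0 * D := by
    rw [mul_assoc, hd0D]
    exact_mod_cast dd_le G A
  have hA2 : (A.card : ℝ) ≤ 2 * D := by
    have h1 : ∑ v ∈ A, d0 ≤ ∑ v ∈ A, ((nb G v ∩ A).card : ℝ) :=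
      Finset.sum_le_sum (fun v hv => (hcore' v hv).le)
    rw [Finset.sum_const, nsmul_eq_mul] at h1
    have h2 : ∑ v ∈ A, ((nb G v ∩ A).card : ℝ) = (dd G A : ℝ) := by unfold dd; push_cast; rfl
    rw [h2] at h1
    have h3 : (A.card : ℝ) * d0 ≤ (2 * D) * d0 := by linarith
    exact le_of_mul_le_mul_right h3 hd0p
  have hDbig : C1 ≤ (D : ℝ) := by
    have h1 := hcore' v0 hv0
    have h2 : ((nb G v0 ∩ A).card : ℝ) ≤ A.card := by
      exact_mod_cast Finset.card_le_card Finset.inter_subset_right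
    linarith
  have hNr : (m : ℝ) ≤ (Fintype.card U : ℝ) := by
    have : m ≤ Fintype.card U := le_trans (Nat.le_add_left _ _) hN
    exact_mod_cast this
  have hNbig : C1 * D ≤ (Fintype.card U : ℝ) := by
    refine le_trans ?_ hNr
    rw [← hd0D]
    apply mul_le_mul_of_nonneg_right _ hDr.le
    linarith
  obtain ⟨S, hSA, hSc, hS⟩ := split G A (Δ := (D : ℝ)) (d0 := d0) hDr (by linarith) hcore' hdd hA2
  apply hE W U G T D (nb T x0) A S hT hD hI rfl hDbig hNbig hSA hSc hA2
  · intro w hw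
    have h1 := (hS w hw).1
    calc ((nb G w ∩ (A \ S)).card : ℝ) * D ≤ ((1 - 1 / 2000) * d0) * D :=
          mul_le_mul_of_nonneg_right h1 hDr.le
      _ = (1 - 2 * (1 / 4000)) * m := by rw [← hd0D]; ring
      _ ≤ (1 - 2 * (1 / 4000)) * (Fintype.card U : ℝ) :=
          mul_le_mul_of_nonneg_left hNr (by norm_num)
  · intro w hw
    have h1 := (hS w hw).2
    calc ((nb G w ∩ S).card : ℝ) * D ≤ (4000 * d0) * D := mul_le_mul_of_nonneg_right h1 hDr.le
      _ = 4000 * m := by rw [← hd0D]; ring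
      _ ≤ 4000 * (Fintype.card U : ℝ) := mul_le_mul_of_nonneg_left hNr (by norm_num)

end Pool.Agent.H37
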